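import Pool.Agent.J4H7.WE.D2

set_option autoImplicit false

/-!
# Waring's problem with perturbed powers `n ^ k + ⌊n ^ γ⌋`, part A (helper7)

The derivative with respect to `γ`.
-/

namespace Pool.Agent.J4H7.WP

open Real Set MeasureTheory Filter Topology Asymptotics
open Pool.Agent.J4H7.WE

/-- the form -/
noncomputable def FP (k : ℕ) {m : ℕ} (p : Fin m → ℕ × ℕ) (g : ℝ) : ℝ :=
  ∑ i, ((((p i).1 : ℝ) ^ k - ((p i).2 : ℝ) ^ k) + (((p i).1 : ℝ) ^ g - ((p i).2 : ℝ) ^ g))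

lemma FP_eq (k : ℕ) {m : ℕ} (p : Fin m → ℕ × ℕ) (g : ℝ) :
    FP k p g = ∑ i, (((p i).1 : ℝ) ^ k - ((p i).2 : ℝ) ^ k) + FF p g := by
  unfold FP FF
  rw [Finset.sum_add_distrib]

lemma FP_deriv (k : ℕ) {m : ℕ} (p : Fin m → ℕ × ℕ) (hp : ∀ i, 1 ≤ (p i).1 ∧ 1 ≤ (p i).2) (g : ℝ) :
    HasDerivAt (FP k p) (FD p g) g := by
  have h : FP k p = fun g => ∑ i, (((p i).1 : ℝ) ^ k - ((p i).2 : ℝ) ^ k) + FF p g := funext (FP_eq k p)
  rw [h]
  exact (FF_deriv p hp g).const_add _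

lemma FP_swap (k : ℕ) {m : ℕ} (p : Fin m → ℕ × ℕ) (g : ℝ) : FP k (fun i => (p i).swap) g = -FP k p g := by
  unfold FP
  rw [← Finset.sum_neg_distrib]
  refine Finset.sum_congr rfl fun i _ => ?_
  simp only [Prod.fst_swap, Prod.snd_swap]
  ring

lemma two_term {m : ℕ} (φ : Fin m → ℝ) (i0 i1 : Fin m) (h01 : i0 ≠ i1) {e : ℝ} (he0 : 0 ≤ e)
    (he : ∀ i, i ≠ i0 → i ≠ i1 → |φ i| ≤ e) : |∑ i, φ i - (φ i0 + φ i1)| ≤ m * e := by
  have e1 : ∑ i, φ i - (φ i0 + φ i1) = ∑ i, (φ i - ((if i = i0 then φ i0 else 0) + (if i = i1 then φ i1 else 0))) := by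
    rw [Finset.sum_sub_distrib, Finset.sum_add_distrib, Finset.sum_ite_eq' Finset.univ i0, Finset.sum_ite_eq' Finset.univ i1,
      if_pos (Finset.mem_univ _), if_pos (Finset.mem_univ _)]
  rw [e1]
  refine (Finset.abs_sum_le_sum_abs _ _).trans ?_
  calc ∑ i, |φ i - ((if i = i0 then φ i0 else 0) + (if i = i1 then φ i1 else 0))| ≤ ∑ _i : Fin m, e := by
        refine Finset.sum_le_sum fun i _ => ?_
        by_cases h0 : i = i0
        · subst h0
          rw [if_pos rfl, if_neg h01]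
          simpa using he0
        · by_cases h1 : i = i1
          · subst h1
            rw [if_neg h0, if_pos rfl]
            simpa using he0
          · rw [if_neg h0, if_neg h1]
            simpa using he i h0 h1
    _ = m * e := by simp

lemma one_term {m : ℕ} (φ : Fin m → ℝ) (i0 : Fin m) {e : ℝ} (he0 : 0 ≤ e)
    (he : ∀ i, i ≠ i0 → |φ i| ≤ e) : |∑ i, φ i - φ i0| ≤ m * e := by
  have e1 : ∑ i, φ i - φ i0 = ∑ i, (φ i - (if i = i0 then φ i0 else 0)) := by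
    rw [Finset.sum_sub_distrib, Finset.sum_ite_eq' Finset.univ i0, if_pos (Finset.mem_univ _)]
  rw [e1]
  refine (Finset.abs_sum_le_sum_abs _ _).trans ?_
  calc ∑ i, |φ i - (if i = i0 then φ i0 else 0)| ≤ ∑ _i : Fin m, e := by
        refine Finset.sum_le_sum fun i _ => ?_
        by_cases h0 : i = i0
        · subst h0
          rw [if_pos rfl]
          simpa using he0
        · rw [if_neg h0]
          simpa using he i h0
    _ = m * e := by simp

/-- the constant -/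
noncomputable def k1 (k : ℕ) : ℝ := 3 / (8 * (k * 2 ^ (k - 1)))

/-- the size condition -/
def CP (q a b t : ℝ) (k m : ℕ) (u : ℝ) : Prop :=
  1 ≤ q * Real.log u ∧ t + m * (2 * (2 ^ k * u ^ (q ^ 2 * k))) ≤ 1 / 4 * u ^ ((k : ℝ) - 1) ∧
  16 * (k * 2 ^ (k - 1)) ≤ q * u ^ ((1 - q) * (k - b)) ∧
  m * (2 ^ k * u ^ (q ^ 2 * k) * (Real.log u + 1)) ≤ k1 k / 4 * (u ^ (q * (a - k)) * u ^ ((k : ℝ) - 1))

/-- bounds for small levels -/
lemma small_lev {q X g : ℝ} {k : ℕ} (hq : 0 < q) (hq1 : q < 1) (hX : 1 ≤ X) (hg0 : 0 ≤ g) (hg : g ≤ k) {i0 i : ℕ}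
    (hi : i0 + 2 ≤ i) {x y : ℕ} (hx : x ∈ SS q X i) (hy : y ∈ SS q X i) :
    |((x : ℝ) ^ k - (y : ℝ) ^ k) + ((x : ℝ) ^ g - (y : ℝ) ^ g)| ≤ 2 * (2 ^ k * (lev q X i0) ^ (q ^ 2 * k)) ∧
    |(x : ℝ) ^ g * Real.log x - (y : ℝ) ^ g * Real.log y| ≤
      2 ^ k * (lev q X i0) ^ (q ^ 2 * k) * (Real.log (lev q X i0) + 1) := by
  set u := lev q X i0 with hu
  have hu1 : 1 ≤ u := one_le_lev hq.le hX _
  have hl1 : 1 ≤ lev q X i := one_le_lev hq.le hX _
  have hlu2 : lev q X i ≤ u ^ (q ^ 2) := by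
    rw [hu, ← lev_add hX]
    exact lev_anti hq hq1 hX hi
  have hlu : lev q X i ≤ u := by
    rw [hu]; exact lev_anti hq hq1 hX (by omega)
  set E : ℝ := 2 ^ k * u ^ (q ^ 2 * k) with hE
  have hE0 : 0 ≤ E := by positivity
  have key : ∀ z : ℕ, z ∈ SS q X i → 0 ≤ (z : ℝ) ^ k ∧ (z : ℝ) ^ k ≤ E ∧ 0 ≤ (z : ℝ) ^ g ∧ (z : ℝ) ^ g ≤ E ∧
      0 ≤ Real.log z ∧ Real.log z ≤ Real.log u + 1 := by
    intro z hz
    rw [mem_SS hX] at hz
    have hz1 : (1 : ℝ) ≤ z := hl1.trans hz.1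
    have h1 : (z : ℝ) ^ k ≤ E := by
      calc (z : ℝ) ^ k ≤ (2 * u ^ (q ^ 2)) ^ k := pow_le_pow_left₀ (by positivity) (by linarith [hz.2]) k
        _ = E := by
          rw [hE, mul_pow, ← Real.rpow_natCast (u ^ (q ^ 2)) k, ← Real.rpow_mul (by linarith)]
    have h2 : (z : ℝ) ^ g ≤ (z : ℝ) ^ k := by
      rw [← Real.rpow_natCast]
      exact Real.rpow_le_rpow_of_exponent_le hz1 hg
    refine ⟨by positivity, h1, Real.rpow_nonneg (by linarith) _, h2.trans h1, Real.log_nonneg hz1, ?_⟩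
    have h1 : Real.log z ≤ Real.log (2 * u) := Real.log_le_log (by linarith) (by linarith [hz.2])
    rw [Real.log_mul (by norm_num) (by linarith)] at h1
    have := Real.log_two_lt_d9
    linarith
  obtain ⟨a1, a2, a3, a4, a5, a6⟩ := key x hx
  obtain ⟨b1, b2, b3, b4, b5, b6⟩ := key y hy
  constructor
  · rw [abs_le]
    constructor <;> linarith
  · have c1 : (x : ℝ) ^ g * Real.log x ≤ E * (Real.log u + 1) := mul_le_mul a4 a6 a5 hE0
    have c2 : (y : ℝ) ^ g * Real.log y ≤ E * (Real.log u + 1) := mul_le_mul b4 b6 b5 hE0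
    have c3 : 0 ≤ (x : ℝ) ^ g * Real.log x := mul_nonneg a3 a5
    have c4 : 0 ≤ (y : ℝ) ^ g * Real.log y := mul_nonneg b3 b5
    rw [abs_le]
    constructor <;> linarith

/-- comparison of the differences -/
lemma cmp_upper {g u x y : ℝ} {k : ℕ} (hg0 : 0 ≤ g) (hg : g ≤ k) (hu : 0 < u) (hy : u ≤ y) (hxy : y ≤ x) :
    x ^ g - y ^ g ≤ (x ^ k - y ^ k) * u ^ (g - k) := by
  have hy0 : 0 < y := by linarith
  have hx0 : 0 < x := by linarith
  have h1 : ∀ z : ℝ, 0 < z → z ^ k = z ^ g * z ^ ((k : ℝ) - g) := by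
    intro z hz
    rw [← Real.rpow_natCast z k, ← Real.rpow_add hz]
    congr 1
    ring
  have h2 : u ^ ((k : ℝ) - g) ≤ y ^ ((k : ℝ) - g) := Real.rpow_le_rpow hu.le hy (by linarith)
  have h3 : y ^ ((k : ℝ) - g) ≤ x ^ ((k : ℝ) - g) := Real.rpow_le_rpow hy0.le hxy (by linarith)
  have h4 : y ^ g ≤ x ^ g := Real.rpow_le_rpow hy0.le hxy hg0
  have h5 : 0 ≤ x ^ g := Real.rpow_nonneg hx0.le _
  have h6 : u ^ ((k : ℝ) - g) * (x ^ g - y ^ g) ≤ x ^ k - y ^ k := by
    rw [h1 x hx0, h1 y hy0]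
    nlinarith [mul_nonneg h5 (sub_nonneg.2 h3), mul_nonneg (sub_nonneg.2 h4) (sub_nonneg.2 h2)]
  have h7 : u ^ (g - k) * u ^ ((k : ℝ) - g) = 1 := by
    rw [← Real.rpow_add hu]
    simp
  have h8 : 0 < u ^ (g - k) := Real.rpow_pos_of_pos hu _
  calc x ^ g - y ^ g = (u ^ (g - k) * u ^ ((k : ℝ) - g)) * (x ^ g - y ^ g) := by rw [h7, one_mul]
    _ = u ^ (g - k) * (u ^ ((k : ℝ) - g) * (x ^ g - y ^ g)) := by ring
    _ ≤ u ^ (g - k) * (x ^ k - y ^ k) := mul_le_mul_of_nonneg_left h6 h8.le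
    _ = _ := by ring

lemma cmp_lower {g w x y : ℝ} {k : ℕ} (hk : 1 ≤ k) (hg1 : 1 ≤ g) (hw : 0 < w) (hx : w ≤ x) (hxy : x ≤ y) (hy : y ≤ 2 * w) :
    (y ^ k - x ^ k) * (w ^ (g - k) / (k * 2 ^ (k - 1))) ≤ y ^ g - x ^ g := by
  have hx0 : 0 < x := by linarith
  have hy0 : 0 < y := by linarith
  have hk1 : (1 : ℝ) ≤ k := by exact_mod_cast hk
  have h1 := pow_diff (θ := g) hg1 hw hx hxy
  have h2 := bern (θ := (k : ℝ)) hk1 hx0 hxy
  rw [Real.rpow_natCast, Real.rpow_natCast] at h2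
  have h3 : y ^ ((k : ℝ) - 1) ≤ 2 ^ (k - 1) * w ^ ((k : ℝ) - 1) := by
    calc y ^ ((k : ℝ) - 1) ≤ (2 * w) ^ ((k : ℝ) - 1) := Real.rpow_le_rpow hy0.le hy (by linarith)
      _ = 2 ^ ((k : ℝ) - 1) * w ^ ((k : ℝ) - 1) := Real.mul_rpow (by norm_num) hw.le
      _ = _ := by
        congr 1
        rw [← Real.rpow_natCast 2 (k - 1), Nat.cast_sub hk]
        simp
  have h4 : y ^ k - x ^ k ≤ (k * 2 ^ (k - 1)) * (w ^ ((k : ℝ) - 1) * (y - x)) := by
    calc y ^ k - x ^ k ≤ k * y ^ ((k : ℝ) - 1) * (y - x) := h2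
      _ ≤ k * (2 ^ (k - 1) * w ^ ((k : ℝ) - 1)) * (y - x) := by
        apply mul_le_mul_of_nonneg_right _ (by linarith)
        exact mul_le_mul_of_nonneg_left h3 (by linarith)
      _ = _ := by ring
  have h5 : 0 < (k : ℝ) * 2 ^ (k - 1) := by positivity
  have h6 : w ^ (g - k) * w ^ ((k : ℝ) - 1) = w ^ (g - 1) := by
    rw [← Real.rpow_add hw]
    congr 1
    ring
  have h7 : 0 < w ^ (g - k) := Real.rpow_pos_of_pos hw _
  calc (y ^ k - x ^ k) * (w ^ (g - k) / (k * 2 ^ (k - 1)))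
      ≤ ((k * 2 ^ (k - 1)) * (w ^ ((k : ℝ) - 1) * (y - x))) * (w ^ (g - k) / (k * 2 ^ (k - 1))) :=
        mul_le_mul_of_nonneg_right h4 (by positivity)
    _ = (w ^ (g - k) * w ^ ((k : ℝ) - 1)) * (y - x) := by field_simp
    _ = (y - x) * w ^ (g - 1) := by rw [h6]; ring
    _ ≤ _ := h1

/-- **the derivative is very negative** at near-coincidences -/
lemma FD_neg {q X a b g t : ℝ} {k m : ℕ} (hk : 2 ≤ k) (hq : 0 < q) (hq1 : q < 1) (hX : 1 ≤ X) (ha : 1 ≤ a) (hag : a ≤ g)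
    (hgb : g ≤ b) (hbk : b < k) (p : Fin m → ℕ × ℕ)
    (hp : ∀ i : Fin m, (p i).1 ∈ SS q X i ∧ (p i).2 ∈ SS q X i) (i0 : Fin m)
    (h0 : ∀ i, i < i0 → (p i).1 = (p i).2) (h1 : (p i0).2 < (p i0).1) (hc : CP q a b t k m (lev q X i0))
    (hF : |FP k p g| ≤ t) :
    k1 k / 4 * ((lev q X i0) ^ (q * (a - k)) * ((((p i0).1 : ℝ) - (p i0).2) * (lev q X i0) ^ ((k : ℝ) - 1))) ≤ -(FD p g) := by
  set u := lev q X i0 with hu
  have hu1 : 1 ≤ u := one_le_lev hq.le hX _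
  have hu0 : 0 < u := by linarith
  have hk' : (2 : ℝ) ≤ k := by exact_mod_cast hk
  have hg1 : 1 ≤ g := ha.trans hag
  have hgk : g ≤ k := by linarith
  have hx0 := (mem_SS hX).1 (hp i0).1
  have hy0 := (mem_SS hX).1 (hp i0).2
  rw [← hu] at hx0 hy0
  have hxy : ((p i0).2 : ℝ) + 1 ≤ (p i0).1 := by exact_mod_cast h1
  obtain ⟨hc1, hc2, hc3, hc4⟩ := hc
  set E : ℝ := 2 ^ k * u ^ (q ^ 2 * k) with hE
  have hE0 : 0 ≤ E := by positivity
  have hlogu : 1 ≤ Real.log u := by nlinarith [Real.log_nonneg hu1]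
  -- the two sequences
  set φ : Fin m → ℝ := fun i => (((p i).1 : ℝ) ^ k - ((p i).2 : ℝ) ^ k) + (((p i).1 : ℝ) ^ g - ((p i).2 : ℝ) ^ g) with hφ
  set ψ : Fin m → ℝ := fun i => ((p i).1 : ℝ) ^ g * Real.log (p i).1 - ((p i).2 : ℝ) ^ g * Real.log (p i).2 with hψ
  have hFP : FP k p g = ∑ i, φ i := rfl
  have hFD : FD p g = ∑ i, ψ i := rfl
  have hsm : ∀ i : Fin m, i ≠ i0 → (i : ℕ) ≠ i0 + 1 → |φ i| ≤ 2 * E ∧ |ψ i| ≤ E * (Real.log u + 1) := by
    intro i hi hi1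
    rcases lt_trichotomy i i0 with h | h | h
    · have h2 : (p i).1 = (p i).2 := h0 i h
      simp only [hφ, hψ, h2, sub_self, add_zero, abs_zero]
      exact ⟨by positivity, by positivity⟩
    · exact absurd h hi
    · have h' : (i0 : ℕ) < i := h
      exact small_lev (k := k) hq hq1 hX (by linarith) hgk (by omega) (hp i).1 (hp i).2
  -- level i0
  set H : ℝ := (((p i0).1 : ℝ) - (p i0).2) * u ^ ((k : ℝ) - 1) with hH
  set A0 : ℝ := ((p i0).1 : ℝ) ^ k - ((p i0).2 : ℝ) ^ k with hA0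
  have hua0 : 0 < u ^ ((k : ℝ) - 1) := Real.rpow_pos_of_pos hu0 _
  have hHA : H ≤ A0 := by
    have := pow_diff (θ := (k : ℝ)) (Y := u) (x := ((p i0).1 : ℝ)) (y := ((p i0).2 : ℝ)) (by linarith) hu0 hy0.1 (by linarith)
    rw [Real.rpow_natCast, Real.rpow_natCast] at this
    exact this
  have hH1 : u ^ ((k : ℝ) - 1) ≤ H := by
    rw [hH]
    nlinarith
  have hA0p : 0 < A0 := by linarith
  have hB0 : 0 ≤ ((p i0).1 : ℝ) ^ g - ((p i0).2 : ℝ) ^ g :=
    sub_nonneg.2 (Real.rpow_le_rpow (by positivity) (by linarith) (by linarith))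
  have hφ0 : A0 ≤ φ i0 := by
    simp only [hφ, hA0]
    linarith
  have hψ0 : ψ i0 ≤ 3 * Real.log u * (u ^ (g - k) * A0) := by
    have h2 := log_upper (θ := g) (Y := u) (x := ((p i0).1 : ℝ)) (y := ((p i0).2 : ℝ)) hg1 hu1 hy0.1 (by linarith) hx0.2
    have h3 := cmp_upper (g := g) (u := u) (x := ((p i0).1 : ℝ)) (y := ((p i0).2 : ℝ)) (k := k) (by linarith) hgk hu0 hy0.1
      (by linarith)
    simp only [hψ]
    calc ((p i0).1 : ℝ) ^ g * Real.log (p i0).1 - ((p i0).2 : ℝ) ^ g * Real.log (p i0).2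
        ≤ (Real.log u + 2) * (((p i0).1 : ℝ) ^ g - ((p i0).2 : ℝ) ^ g) := h2
      _ ≤ (3 * Real.log u) * (((p i0).1 : ℝ) ^ g - ((p i0).2 : ℝ) ^ g) := mul_le_mul_of_nonneg_right (by linarith) hB0
      _ ≤ (3 * Real.log u) * (A0 * u ^ (g - k)) := mul_le_mul_of_nonneg_left h3 (by linarith)
      _ = _ := by ring
  by_cases hex : ∃ i : Fin m, (i : ℕ) = i0 + 1 ∧ (p i).1 < (p i).2
  · obtain ⟨i1, hi1, hlt⟩ := hex
    have hne : i0 ≠ i1 := by
      intro h
      have := congrArg Fin.val h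
      omega
    have hlev : lev q X i1 = u ^ q := by
      rw [hi1, hu, lev_add hX, pow_one]
    set w : ℝ := u ^ q with hw
    have hw1 : 1 ≤ w := Real.one_le_rpow hu1 hq.le
    have hw0 : 0 < w := by linarith
    have hlogw : Real.log w = q * Real.log u := Real.log_rpow hu0 _
    have hx1 := (mem_SS hX).1 (hp i1).1
    have hy1 := (mem_SS hX).1 (hp i1).2
    rw [hlev] at hx1 hy1
    have hlt' : ((p i1).1 : ℝ) ≤ (p i1).2 := by exact_mod_cast hlt.le
    set A1 : ℝ := ((p i1).2 : ℝ) ^ k - ((p i1).1 : ℝ) ^ k with hA1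
    have hA1n : 0 ≤ A1 := sub_nonneg.2 (pow_le_pow_left₀ (by positivity) hlt' k)
    have hB1 := cmp_upper (g := g) (u := w) (x := ((p i1).2 : ℝ)) (y := ((p i1).1 : ℝ)) (k := k) (by linarith) hgk hw0 hx1.1 hlt'
    have hB1' : ((p i1).2 : ℝ) ^ g - ((p i1).1 : ℝ) ^ g ≤ A1 := by
      refine hB1.trans ?_
      have : w ^ (g - k) ≤ 1 := Real.rpow_le_one_of_one_le_of_nonpos hw1 (by linarith)
      nlinarith
    have hφ1 : -(2 * A1) ≤ φ i1 := by
      simp only [hφ]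
      linarith
    -- A1 is large
    have t1 := two_term φ i0 i1 hne (e := 2 * E) (by positivity) (fun i h h' => (hsm i h (by
      intro h2
      exact h' (Fin.ext (by omega)))).1)
    rw [← hFP] at t1
    have hA1l : 3 / 8 * A0 ≤ A1 := by
      have h2 := (abs_le.1 t1).2
      have h3 := (abs_le.1 t1).1
      have h4 := (abs_le.1 hF).2
      have h5 := (abs_le.1 hF).1
      -- φ0 + φ1 ≤ t + m * 2E
      have h6 : φ i0 + φ i1 ≤ t + m * (2 * E) := by linarith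
      have h7 : t + m * (2 * E) ≤ 1 / 4 * A0 := by
        refine hc2.trans ?_
        nlinarith
      linarith
    -- the derivative at level i1
    have hψ1 : k1 k * (Real.log w * (w ^ (g - k) * A0)) ≤ -(ψ i1) := by
      have h2 := log_lower (θ := g) (Y := w) (x := ((p i1).2 : ℝ)) (y := ((p i1).1 : ℝ)) (by linarith) hw1 hx1.1 hlt'
      have h3 := cmp_lower (g := g) (w := w) (x := ((p i1).1 : ℝ)) (y := ((p i1).2 : ℝ)) (k := k) (by omega) hg1 hw0 hx1.1 hlt'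
        hy1.2
      have hlw : 0 ≤ Real.log w := Real.log_nonneg hw1
      have hwg : 0 < w ^ (g - k) := Real.rpow_pos_of_pos hw0 _
      have hkk : 0 < (k : ℝ) * 2 ^ (k - 1) := by positivity
      have e1 : -(ψ i1) = ((p i1).2 : ℝ) ^ g * Real.log (p i1).2 - ((p i1).1 : ℝ) ^ g * Real.log (p i1).1 := by
        simp only [hψ]
        ring
      rw [e1]
      calc k1 k * (Real.log w * (w ^ (g - k) * A0))
          = Real.log w * ((3 / 8 * A0) * (w ^ (g - k) / (k * 2 ^ (k - 1)))) := by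
            unfold k1
            field_simp
        _ ≤ Real.log w * (A1 * (w ^ (g - k) / (k * 2 ^ (k - 1)))) := by
            apply mul_le_mul_of_nonneg_left _ hlw
            exact mul_le_mul_of_nonneg_right hA1l (by positivity)
        _ ≤ Real.log w * (((p i1).2 : ℝ) ^ g - ((p i1).1 : ℝ) ^ g) := mul_le_mul_of_nonneg_left h3 hlw
        _ ≤ _ := h2
    -- the sum
    have t2 := two_term ψ i0 i1 hne (e := E * (Real.log u + 1)) (by positivity) (fun i h h' => (hsm i h (by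
      intro h2
      exact h' (Fin.ext (by omega)))).2)
    rw [← hFD] at t2
    have t3 := (abs_le.1 t2).2
    have hk1 : 0 < k1 k := by
      unfold k1
      positivity
    set Q : ℝ := k1 k * (Real.log w * (w ^ (g - k) * A0)) with hQ
    have hψ0' : ψ i0 ≤ Q / 2 := by
      refine hψ0.trans ?_
      -- 3 log u u^{g-k} A0 ≤ k1/2 q log u w^{g-k} A0
      have h2 : u ^ ((1 - q) * ((k : ℝ) - g)) * u ^ (g - k) = w ^ (g - k) := by
        rw [hw, ← Real.rpow_mul hu0.le, ← Real.rpow_add hu0]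
        congr 1
        ring
      have h3 : u ^ ((1 - q) * ((k : ℝ) - b)) ≤ u ^ ((1 - q) * ((k : ℝ) - g)) := by
        apply Real.rpow_le_rpow_of_exponent_le hu1
        apply mul_le_mul_of_nonneg_left (by linarith) (by linarith)
      have h4 : 16 * (k * 2 ^ (k - 1)) ≤ q * u ^ ((1 - q) * ((k : ℝ) - g)) := hc3.trans (mul_le_mul_of_nonneg_left h3 hq.le)
      have hug : 0 < u ^ (g - k) := Real.rpow_pos_of_pos hu0 _
      have hkk : 0 < (k : ℝ) * 2 ^ (k - 1) := by positivity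
      have h5 : 6 ≤ k1 k * (q * u ^ ((1 - q) * ((k : ℝ) - g))) := by
        calc (6 : ℝ) = k1 k * (16 * (k * 2 ^ (k - 1))) := by
              unfold k1
              field_simp
              norm_num
          _ ≤ _ := mul_le_mul_of_nonneg_left h4 hk1.le
      have h6 : 0 ≤ Real.log u * (u ^ (g - k) * A0) / 2 := by positivity
      calc 3 * Real.log u * (u ^ (g - k) * A0) = 6 * (Real.log u * (u ^ (g - k) * A0) / 2) := by ring
        _ ≤ (k1 k * (q * u ^ ((1 - q) * ((k : ℝ) - g)))) * (Real.log u * (u ^ (g - k) * A0) / 2) :=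
            mul_le_mul_of_nonneg_right h5 h6
        _ = k1 k * ((q * Real.log u) * ((u ^ ((1 - q) * ((k : ℝ) - g)) * u ^ (g - k)) * A0)) / 2 := by ring
        _ = Q / 2 := by rw [h2, hQ, hlogw]
    have hwa : w ^ (a - k) = u ^ (q * (a - k)) := by
      rw [hw, ← Real.rpow_mul hu0.le]
    have hQl : k1 k * (u ^ (q * (a - k)) * A0) ≤ Q := by
      rw [hQ]
      apply mul_le_mul_of_nonneg_left _ hk1.le
      rw [← hwa]
      have h2 : w ^ (a - k) ≤ w ^ (g - k) := Real.rpow_le_rpow_of_exponent_le hw1 (by linarith)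
      have h3 : 0 < w ^ (g - k) := Real.rpow_pos_of_pos hw0 _
      have h4 : 1 ≤ Real.log w := by rw [hlogw]; exact hc1
      calc w ^ (a - k) * A0 ≤ w ^ (g - k) * A0 := mul_le_mul_of_nonneg_right h2 hA0p.le
        _ = 1 * (w ^ (g - k) * A0) := (one_mul _).symm
        _ ≤ _ := mul_le_mul_of_nonneg_right h4 (by positivity)
    have huq : 0 < u ^ (q * (a - k)) := Real.rpow_pos_of_pos hu0 _
    have hrest : m * (E * (Real.log u + 1)) ≤ Q / 4 := by
      calc m * (E * (Real.log u + 1)) ≤ k1 k / 4 * (u ^ (q * (a - k)) * u ^ ((k : ℝ) - 1)) := hc4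
        _ ≤ k1 k / 4 * (u ^ (q * (a - k)) * A0) := by
          apply mul_le_mul_of_nonneg_left _ (by positivity)
          exact mul_le_mul_of_nonneg_left (by linarith) huq.le
        _ ≤ Q / 4 := by linarith
    calc k1 k / 4 * (u ^ (q * (a - k)) * H) ≤ k1 k / 4 * (u ^ (q * (a - k)) * A0) := by
          apply mul_le_mul_of_nonneg_left _ (by positivity)
          exact mul_le_mul_of_nonneg_left hHA huq.le
      _ ≤ Q / 4 := by linarith
      _ ≤ -(FD p g) := by linarith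
  · -- impossible
    exfalso
    push Not at hex
    have hge : A0 - m * (2 * E) ≤ FP k p g := by
      by_cases hex2 : ∃ i : Fin m, (i : ℕ) = i0 + 1
      · obtain ⟨i1, hi1⟩ := hex2
        have hne : i0 ≠ i1 := by
          intro h
          have := congrArg Fin.val h
          omega
        have hle := hex i1 hi1
        have hle' : ((p i1).2 : ℝ) ≤ (p i1).1 := by exact_mod_cast hle
        have t1 := two_term φ i0 i1 hne (e := 2 * E) (by positivity) (fun i h h' => (hsm i h (by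
          intro h2
          exact h' (Fin.ext (by omega)))).1)
        rw [← hFP] at t1
        have h2 : 0 ≤ φ i1 := by
          simp only [hφ]
          have g1 : ((p i1).2 : ℝ) ^ k ≤ ((p i1).1 : ℝ) ^ k := pow_le_pow_left₀ (by positivity) hle' k
          have g2 : ((p i1).2 : ℝ) ^ g ≤ ((p i1).1 : ℝ) ^ g := Real.rpow_le_rpow (by positivity) hle' (by linarith)
          linarith
        have h3 := (abs_le.1 t1).1
        linarith
      · push Not at hex2
        have t1 := one_term φ i0 (e := 2 * E) (by positivity) (fun i h => (hsm i h (hex2 i)).1)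
        rw [← hFP] at t1
        have h3 := (abs_le.1 t1).1
        linarith
    have h4 := (abs_le.1 hF).2
    nlinarith

end Pool.Agent.J4H7.WP
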