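import Pool.Agent.J4H7.WP.A

set_option autoImplicit false

/-!
# Waring's problem with perturbed powers `n ^ k + ⌊n ^ γ⌋`, part B (helper7)

Measure and Borel-Cantelli.
-/

namespace Pool.Agent.J4H7.WP

open Real Set MeasureTheory Filter Topology Asymptotics
open Pool.Agent.J4H7.WE

lemma k1_pos {k : ℕ} (hk : 2 ≤ k) : 0 < k1 k := by
  unfold k1
  have : (0 : ℝ) < k := by
    have : 0 < k := by omega
    exact_mod_cast this
  positivity

lemma ev_CP {q a b t : ℝ} {k m : ℕ} (hk : 2 ≤ k) (hq : 0 < q) (hq1 : q < 1) (hbk : b < k) (hak : a ≤ k)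
    (h : q ^ 2 * k + q * (k - a) < (k : ℝ) - 1) : ∀ᶠ u : ℝ in atTop, CP q a b t k m u := by
  have hk' : (2 : ℝ) ≤ k := by exact_mod_cast hk
  have hk1 := k1_pos hk
  have h1 : ∀ᶠ u : ℝ in atTop, 1 ≤ q * Real.log u :=
    (Real.tendsto_log_atTop.const_mul_atTop hq).eventually_ge_atTop 1
  have h2 : ∀ᶠ u : ℝ in atTop, 0 * Real.log u + t ≤ 1 / 8 * u ^ ((k : ℝ) - 1) := ev_log (by linarith) _ _ (by norm_num)
  have h3 : ∀ᶠ u : ℝ in atTop, 0 * Real.log u + m * (2 * 2 ^ k) ≤ 1 / 8 * u ^ ((k : ℝ) - 1 - q ^ 2 * k) :=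
    ev_log (by nlinarith [mul_nonneg hq.le (sub_nonneg.2 hak)]) _ _ (by norm_num)
  have h4 : ∀ᶠ u : ℝ in atTop, 16 * (k * 2 ^ (k - 1)) / q ≤ u ^ ((1 - q) * (k - b)) :=
    (tendsto_rpow_atTop (mul_pos (by linarith) (by linarith))).eventually_ge_atTop _
  have h5 : ∀ᶠ u : ℝ in atTop, (m * 2 ^ k) * Real.log u + (m * 2 ^ k) ≤ k1 k / 4 * u ^ (q * (a - k) + ((k : ℝ) - 1) - q ^ 2 * k) :=
    ev_log (by linarith) _ _ (by positivity)
  filter_upwards [h1, h2, h3, h4, h5, eventually_ge_atTop 1] with u g1 g2 g3 g4 g5 g6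
  have hu0 : (0 : ℝ) < u := by linarith
  have hP : 0 < u ^ (q ^ 2 * k) := Real.rpow_pos_of_pos hu0 _
  refine ⟨g1, ?_, ?_, ?_⟩
  · have e1 : u ^ ((k : ℝ) - 1 - q ^ 2 * k) * u ^ (q ^ 2 * k) = u ^ ((k : ℝ) - 1) := by
      rw [← Real.rpow_add hu0]
      congr 1
      ring
    have g7 : (m : ℝ) * (2 * (2 ^ k * u ^ (q ^ 2 * k))) ≤ 1 / 8 * u ^ ((k : ℝ) - 1) := by
      calc (m : ℝ) * (2 * (2 ^ k * u ^ (q ^ 2 * k))) = (m * (2 * 2 ^ k)) * u ^ (q ^ 2 * k) := by ring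
        _ ≤ (1 / 8 * u ^ ((k : ℝ) - 1 - q ^ 2 * k)) * u ^ (q ^ 2 * k) := by
          apply mul_le_mul_of_nonneg_right _ hP.le
          linarith
        _ = 1 / 8 * (u ^ ((k : ℝ) - 1 - q ^ 2 * k) * u ^ (q ^ 2 * k)) := by ring
        _ = _ := by rw [e1]
    linarith
  · rw [div_le_iff₀ hq] at g4
    linarith
  · have e1 : u ^ (q * (a - k) + ((k : ℝ) - 1) - q ^ 2 * k) * u ^ (q ^ 2 * k) = u ^ (q * (a - k)) * u ^ ((k : ℝ) - 1) := by
      rw [← Real.rpow_add hu0, ← Real.rpow_add hu0]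
      congr 1
      ring
    calc (m : ℝ) * (2 ^ k * u ^ (q ^ 2 * k) * (Real.log u + 1)) = ((m * 2 ^ k) * Real.log u + (m * 2 ^ k)) * u ^ (q ^ 2 * k) := by
          ring
      _ ≤ (k1 k / 4 * u ^ (q * (a - k) + ((k : ℝ) - 1) - q ^ 2 * k)) * u ^ (q ^ 2 * k) :=
          mul_le_mul_of_nonneg_right g5 hP.le
      _ = k1 k / 4 * (u ^ (q * (a - k) + ((k : ℝ) - 1) - q ^ 2 * k) * u ^ (q ^ 2 * k)) := by ring
      _ = _ := by rw [e1]

/-- the measure of the exponents -/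
lemma volP_le {q X a b t : ℝ} {k m : ℕ} (hk : 2 ≤ k) (hq : 0 < q) (hq1 : q < 1) (hX : 1 ≤ X) (ha : 1 ≤ a) (hab : a ≤ b)
    (hbk : b < k) (ht : 0 ≤ t) (p : Fin m → ℕ × ℕ) (hp : ∀ i : Fin m, (p i).1 ∈ SS q X i ∧ (p i).2 ∈ SS q X i) (i0 : Fin m)
    (h0 : ∀ i, i < i0 → (p i).1 = (p i).2) (h1 : (p i0).1 ≠ (p i0).2) (hc : CP q a b t k m (lev q X i0)) :
    volume {g | g ∈ Icc a b ∧ |FP k p g| ≤ t} ≤
      ENNReal.ofReal (2 * (4 / k1 k * t * X ^ ((k : ℝ) - a)) * (1 / |((p i0).1 : ℝ) - (p i0).2|) *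
        (lev q X i0) ^ (1 - (k : ℝ))) := by
  have hk1 := k1_pos hk
  have hX0 : 0 < X := by linarith
  have main : ∀ p : Fin m → ℕ × ℕ, (∀ i : Fin m, (p i).1 ∈ SS q X i ∧ (p i).2 ∈ SS q X i) →
      (∀ i, i < i0 → (p i).1 = (p i).2) → (p i0).2 < (p i0).1 →
      volume {g | g ∈ Icc a b ∧ |FP k p g| ≤ t} ≤
        ENNReal.ofReal (2 * (4 / k1 k * t * X ^ ((k : ℝ) - a)) * (1 / |((p i0).1 : ℝ) - (p i0).2|) *
          (lev q X i0) ^ (1 - (k : ℝ))) := by
    intro p hp h0 h1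
    have hp1 : ∀ i, 1 ≤ (p i).1 ∧ 1 ≤ (p i).2 := by
      intro i
      have g1 := (mem_SS hX).1 (hp i).1
      have g2 := (mem_SS hX).1 (hp i).2
      have g3 := one_le_lev hq.le hX (i : ℕ)
      constructor
      · exact_mod_cast g3.trans g1.1
      · exact_mod_cast g3.trans g2.1
    have hlt : ((p i0).2 : ℝ) < (p i0).1 := by exact_mod_cast h1
    set u := lev q X (i0 : ℕ) with hu
    have hu1 : 1 ≤ u := one_le_lev hq.le hX (i0 : ℕ)
    have hu0 : 0 < u := by linarith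
    have huX : u ≤ X := by
      have : u ≤ lev q X 0 := lev_anti hq hq1 hX (Nat.zero_le _)
      have h00 : lev q X 0 = X := by unfold lev; simp
      rwa [h00] at this
    have hh : 0 < ((p i0).1 : ℝ) - (p i0).2 := by linarith
    have hP1 : 0 < u ^ (q * (a - k)) := Real.rpow_pos_of_pos hu0 _
    have hP2 : 0 < u ^ ((k : ℝ) - 1) := Real.rpow_pos_of_pos hu0 _
    set D : ℝ := k1 k / 4 * (u ^ (q * (a - k)) * ((((p i0).1 : ℝ) - (p i0).2) * u ^ ((k : ℝ) - 1))) with hD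
    have hD0 : 0 < D := by positivity
    have e0 : {g | g ∈ Icc a b ∧ |FP k p g| ≤ t} = {g | g ∈ Icc a b ∧ |-(FP k p g)| ≤ t} := by
      ext g
      simp
    rw [e0]
    refine (sub_vol (F := fun g => -(FP k p g)) (F' := fun g => -(FD p g)) (fun x _ => (FP_deriv k p hp1 x).neg) hD0
      fun x hx hx2 => by
        rw [abs_neg] at hx2
        exact FD_neg hk hq hq1 hX ha hx.1 hx.2 hbk p hp i0 h0 h1 hc hx2).trans ?_
    apply ENNReal.ofReal_le_ofReal
    rw [abs_of_pos hh, show (1 - (k : ℝ)) = -((k : ℝ) - 1) by ring, Real.rpow_neg hu0.le]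
    have h3 : 1 / u ^ (q * (a - k)) ≤ X ^ ((k : ℝ) - a) := by
      rw [one_div, ← Real.rpow_neg hu0.le]
      calc u ^ (-(q * (a - k))) = u ^ (q * (k - a)) := by
            congr 1
            ring
        _ ≤ X ^ (q * (k - a)) := Real.rpow_le_rpow hu0.le huX (mul_nonneg hq.le (by linarith))
        _ ≤ X ^ ((k : ℝ) - a) := by
            apply Real.rpow_le_rpow_of_exponent_le hX
            nlinarith
    have h4 : 2 * t / D = 2 * (4 / k1 k * t * (1 / u ^ (q * (a - k)))) * (1 / (((p i0).1 : ℝ) - (p i0).2)) *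
        (u ^ ((k : ℝ) - 1))⁻¹ := by
      rw [hD]
      field_simp
    rw [h4]
    apply mul_le_mul_of_nonneg_right _ (by positivity)
    apply mul_le_mul_of_nonneg_right _ (by positivity)
    apply mul_le_mul_of_nonneg_left _ (by norm_num)
    exact mul_le_mul_of_nonneg_left h3 (by positivity)
  rcases lt_or_gt_of_ne h1 with h2 | h2
  · have h3 := main (fun i => (p i).swap) (fun i => ⟨(hp i).2, (hp i).1⟩) (fun i hi => (h0 i hi).symm) h2
    simp only [FP_swap, abs_neg, Prod.fst_swap, Prod.snd_swap] at h3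
    rw [abs_sub_comm] at h3
    exact h3
  · exact main p hp h0 h2

/-- the measure of the exponents, in terms of weights -/
lemma volP_le' {q X a b t : ℝ} {k m : ℕ} (hk : 2 ≤ k) (hq : 0 < q) (hq1 : q < 1) (hX : 1 ≤ X) (ha : 1 ≤ a) (hab : a ≤ b)
    (hbk : b < k) (ht : 0 ≤ t) (p : Fin m → ℕ × ℕ) (hp : p ∈ PPs q X m) (hc : ∀ i : Fin m, CP q a b t k m (lev q X i)) :
    volume {g | g ∈ Icc a b ∧ |FP k p g| ≤ t} ≤
      ENNReal.ofReal (((k + (b - a) : ℝ) - k) * ∏ i, (if (p i).1 = (p i).2 then (1 : ℝ) else 0) +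
        ∑ i0 : Fin m, 2 * (4 / k1 k * t * X ^ ((k : ℝ) - a)) * (lev q X i0) ^ (1 - (k : ℝ)) * ∏ i, psi i0 i (p i)) := by
  rw [mem_PPs] at hp
  have hk1 := k1_pos hk
  have hX0 : 0 < X := by linarith
  have hXa : 0 ≤ X ^ ((k : ℝ) - a) := Real.rpow_nonneg hX0.le _
  have hnn : ∀ i0 : Fin m, 0 ≤ 2 * (4 / k1 k * t * X ^ ((k : ℝ) - a)) * (lev q X i0) ^ (1 - (k : ℝ)) * ∏ i, psi i0 i (p i) := by
    intro i0
    have h1 := (Real.rpow_pos_of_pos (lev_pos (q := q) hX (i0 : ℕ)) (1 - (k : ℝ))).le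
    have h2 : 0 ≤ ∏ i, psi i0 i (p i) := Finset.prod_nonneg fun i _ => psi_nonneg _ _ _
    positivity
  rw [add_sub_cancel_left]
  by_cases hall : ∀ i, (p i).1 = (p i).2
  · have h1 : ∏ i, (if (p i).1 = (p i).2 then (1 : ℝ) else 0) = 1 := by
      apply Finset.prod_eq_one
      intro i _
      rw [if_pos (hall i)]
    rw [h1]
    calc volume {g | g ∈ Icc a b ∧ |FP k p g| ≤ t} ≤ volume (Icc a b) := measure_mono fun x hx => hx.1
      _ = ENNReal.ofReal (b - a) := Real.volume_Icc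
      _ ≤ _ := by
        apply ENNReal.ofReal_le_ofReal
        have := Finset.sum_nonneg fun i0 (_ : i0 ∈ (Finset.univ : Finset (Fin m))) => hnn i0
        linarith
  · push Not at hall
    set s : Finset (Fin m) := Finset.univ.filter fun i => (p i).1 ≠ (p i).2 with hs
    have hne : s.Nonempty := by
      obtain ⟨i, hi⟩ := hall
      exact ⟨i, by simp [hs, hi]⟩
    set i0 := s.min' hne with hi0
    have hi0s : (p i0).1 ≠ (p i0).2 := by
      have := s.min'_mem hne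
      rw [← hi0, hs, Finset.mem_filter] at this
      exact this.2
    have hlt : ∀ i, i < i0 → (p i).1 = (p i).2 := by
      intro i hi
      by_contra hne'
      have : i ∈ s := by simp [hs, hne']
      exact absurd (s.min'_le i this) (not_le.2 hi)
    refine (volP_le hk hq hq1 hX ha hab hbk ht p hp i0 hlt hi0s (hc i0)).trans ?_
    apply ENNReal.ofReal_le_ofReal
    have h1 : ∏ i, psi i0 i (p i) = 1 / |((p i0).1 : ℝ) - (p i0).2| := by
      rw [Finset.prod_eq_single i0]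
      · unfold psi od
        rw [if_neg (lt_irrefl _), if_pos rfl, if_neg hi0s]
      · intro i _ hi
        unfold psi
        rcases lt_or_gt_of_ne hi with h | h
        · rw [if_pos h, if_pos (hlt i h)]
        · rw [if_neg (not_lt.2 h.le), if_neg hi]
      · intro h
        exact absurd (Finset.mem_univ _) h
    have h2 : 2 * (4 / k1 k * t * X ^ ((k : ℝ) - a)) * (lev q X i0) ^ (1 - (k : ℝ)) * ∏ i, psi i0 i (p i) ≤
        ∑ i0 : Fin m, 2 * (4 / k1 k * t * X ^ ((k : ℝ) - a)) * (lev q X i0) ^ (1 - (k : ℝ)) * ∏ i, psi i0 i (p i) :=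
      Finset.single_le_sum (f := fun i0 : Fin m => 2 * (4 / k1 k * t * X ^ ((k : ℝ) - a)) *
        (lev q X i0) ^ (1 - (k : ℝ)) * ∏ i, psi i0 i (p i))
        (fun i _ => hnn i) (Finset.mem_univ i0)
    rw [h1] at h2
    have h3 : 0 ≤ (b - a) * ∏ i, (if (p i).1 = (p i).2 then (1 : ℝ) else 0) := by
      apply mul_nonneg (by linarith)
      apply Finset.prod_nonneg
      intro i _
      split_ifs <;> norm_num
    have h4 : 2 * (4 / k1 k * t * X ^ ((k : ℝ) - a)) * (1 / |((p i0).1 : ℝ) - (p i0).2|) * (lev q X i0) ^ (1 - (k : ℝ)) =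
        2 * (4 / k1 k * t * X ^ ((k : ℝ) - a)) * (lev q X i0) ^ (1 - (k : ℝ)) * (1 / |((p i0).1 : ℝ) - (p i0).2|) := by ring
    rw [h4]
    linarith

open scoped Classical in
/-- the number of near-coincidences -/
noncomputable def TP (q X : ℝ) (k m : ℕ) (t g : ℝ) : ℕ := ((PPs q X m).filter fun p => |FP k p g| ≤ t).card

/-- the sublevel set -/
def EP (k : ℕ) {m : ℕ} (a b t : ℝ) (p : Fin m → ℕ × ℕ) : Set ℝ := {g | g ∈ Icc a b ∧ |FP k p g| ≤ t}

lemma EP_meas (k : ℕ) {a b t : ℝ} {m : ℕ} (p : Fin m → ℕ × ℕ) (hp : ∀ i, 1 ≤ (p i).1 ∧ 1 ≤ (p i).2) :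
    MeasurableSet (EP k a b t p) := by
  have h1 : Continuous (FP k p) := continuous_iff_continuousAt.2 fun g => (FP_deriv k p hp g).continuousAt
  have h2 : IsClosed (EP k a b t p) := isClosed_Icc.inter (isClosed_le h1.abs continuous_const)
  exact h2.measurableSet

lemma TP_eq {q X a b t : ℝ} {k m : ℕ} {g : ℝ} (hg : g ∈ Icc a b) :
    ∑ p ∈ PPs q X m, (EP k a b t p).indicator (fun _ => (1 : ENNReal)) g = (TP q X k m t g : ENNReal) := by
  classical
  unfold TP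
  rw [Finset.card_filter]
  push_cast
  refine Finset.sum_congr rfl fun p _ => ?_
  unfold EP
  by_cases h : |FP k p g| ≤ t
  · rw [if_pos h, Set.indicator_of_mem (show g ∈ {g | g ∈ Icc a b ∧ |FP k p g| ≤ t} from ⟨hg, h⟩)]
  · rw [if_neg h, Set.indicator_of_notMem (fun h' => h h'.2)]

/-- the measure of the bad exponents -/
lemma badP_le {q X a b t ε : ℝ} {k m : ℕ} (hk : 2 ≤ k) (hq : 0 < q) (hq1 : q < 1) (hX : 1 ≤ X) (ha : 1 ≤ a) (hab : a ≤ b)
    (hbk : b < k) (ht : 0 ≤ t) (hB : (1 - q) * k ≤ 1) (hC : (k : ℝ) ≤ ∑ i ∈ Finset.range m, q ^ i)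
    (hc : ∀ i : Fin m, CP q a b t k m (lev q X i)) :
    volume {g | g ∈ Icc a b ∧ VV q X m * X ^ (-a + ε) ≤ TP q X k m t g} ≤
      ENNReal.ofReal (((b - a) + m * (2 * (4 / k1 k * t) * (1 + Real.log (2 * X)))) * X ^ (-ε)) := by
  have hX0 : 0 < X := by linarith
  have hk1 := k1_pos hk
  set M : ℝ := VV q X m * X ^ (-a + ε) with hM
  have hM0 : 0 < M := mul_pos (VV_pos hX m) (Real.rpow_pos_of_pos hX0 _)
  have hp1 : ∀ p ∈ PPs q X m, ∀ i, 1 ≤ (p i).1 ∧ 1 ≤ (p i).2 := by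
    intro p hp i
    rw [mem_PPs] at hp
    have g1 := (mem_SS hX).1 (hp i).1
    have g2 := (mem_SS hX).1 (hp i).2
    have g3 := one_le_lev hq.le hX (i : ℕ)
    constructor
    · exact_mod_cast g3.trans g1.1
    · exact_mod_cast g3.trans g2.1
  set f : ℝ → ENNReal := fun g => ∑ p ∈ PPs q X m, (EP k a b t p).indicator (fun _ => (1 : ENNReal)) g with hf
  have hfm : Measurable f := by
    apply Finset.measurable_sum
    intro p hp
    exact measurable_const.indicator (EP_meas k p (hp1 p hp))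
  have h1 : {g | g ∈ Icc a b ∧ M ≤ TP q X k m t g} ⊆ {g | ENNReal.ofReal M ≤ f g} := by
    rintro g ⟨h2, h3⟩
    change ENNReal.ofReal M ≤ f g
    rw [hf]
    simp only
    rw [TP_eq h2]
    calc ENNReal.ofReal M ≤ ENNReal.ofReal (TP q X k m t g : ℝ) := ENNReal.ofReal_le_ofReal h3
      _ = _ := ENNReal.ofReal_natCast _
  have h2 := meas_ge_le_lintegral_div (μ := volume) hfm.aemeasurable (ε := ENNReal.ofReal M)
    (by rw [Ne, ENNReal.ofReal_eq_zero, not_le]; exact hM0) ENNReal.ofReal_ne_top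
  have h3 : ∫⁻ g, f g = ∑ p ∈ PPs q X m, volume (EP k a b t p) := by
    rw [hf]
    rw [lintegral_finsetSum]
    · refine Finset.sum_congr rfl fun p hp => ?_
      rw [lintegral_indicator (EP_meas k p (hp1 p hp)), setLIntegral_const, one_mul]
    · intro p hp
      exact measurable_const.indicator (EP_meas k p (hp1 p hp))
  set T : ℝ := 4 / k1 k * t * X ^ ((k : ℝ) - a) with hT
  have hXa : 1 ≤ X ^ ((k : ℝ) - a) := Real.one_le_rpow hX (by linarith)
  have hT0 : 0 ≤ T := by positivity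
  have hL : 0 ≤ 1 + Real.log (2 * X) := by
    have := Real.log_nonneg (show (1 : ℝ) ≤ 2 * X by linarith)
    linarith
  have h4 : ∑ p ∈ PPs q X m, volume (EP k a b t p) ≤
      ENNReal.ofReal (VV q X m * X ^ (-a) * ((b - a) + m * (2 * (4 / k1 k * t) * (1 + Real.log (2 * X))))) := by
    calc ∑ p ∈ PPs q X m, volume (EP k a b t p) ≤ ∑ p ∈ PPs q X m,
        ENNReal.ofReal (((k + (b - a) : ℝ) - k) * ∏ i, (if (p i).1 = (p i).2 then (1 : ℝ) else 0) +
        ∑ i0 : Fin m, 2 * T * (lev q X i0) ^ (1 - (k : ℝ)) * ∏ i, psi i0 i (p i)) :=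
          Finset.sum_le_sum fun p hp => volP_le' hk hq hq1 hX ha hab hbk ht p hp hc
      _ = ENNReal.ofReal (∑ p ∈ PPs q X m, (((k + (b - a) : ℝ) - k) * ∏ i, (if (p i).1 = (p i).2 then (1 : ℝ) else 0) +
        ∑ i0 : Fin m, 2 * T * (lev q X i0) ^ (1 - (k : ℝ)) * ∏ i, psi i0 i (p i))) := by
          rw [ENNReal.ofReal_sum_of_nonneg]
          intro p _
          apply add_nonneg
          · apply mul_nonneg (by linarith)
            apply Finset.prod_nonneg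
            intro i _
            split_ifs <;> norm_num
          · apply Finset.sum_nonneg
            intro i0 _
            have h1 := (Real.rpow_pos_of_pos (lev_pos (q := q) hX (i0 : ℕ)) (1 - (k : ℝ))).le
            have h2 : 0 ≤ ∏ i, psi i0 i (p i) := Finset.prod_nonneg fun i _ => psi_nonneg _ _ _
            positivity
      _ ≤ _ := by
          apply ENNReal.ofReal_le_ofReal
          have h5 := sum_le (a := (k : ℝ)) (b := k + (b - a)) (t := T) hq hq1 hX (by linarith) hT0 hB hC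
          refine h5.trans ?_
          rw [add_sub_cancel_left]
          have e1 : X ^ (-a) = X ^ (-(k : ℝ)) * X ^ ((k : ℝ) - a) := by
            rw [← Real.rpow_add hX0]
            congr 1
            ring
          have e2 : X ^ ((k : ℝ) - a) * ((b - a) + m * (2 * (4 / k1 k * t) * (1 + Real.log (2 * X)))) =
              X ^ ((k : ℝ) - a) * (b - a) + m * (2 * T * (1 + Real.log (2 * X))) := by
            rw [hT]
            ring
          have hP : 0 ≤ VV q X m * X ^ (-(k : ℝ)) := mul_nonneg (VV_pos hX m).le (Real.rpow_nonneg hX0.le _)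
          calc VV q X m * X ^ (-(k : ℝ)) * (b - a + m * (2 * T * (1 + Real.log (2 * X))))
              ≤ VV q X m * X ^ (-(k : ℝ)) * (X ^ ((k : ℝ) - a) * (b - a) + m * (2 * T * (1 + Real.log (2 * X)))) := by
                apply mul_le_mul_of_nonneg_left _ hP
                nlinarith
            _ = _ := by
                rw [← e2, e1]
                ring
  calc volume {g | g ∈ Icc a b ∧ M ≤ TP q X k m t g} ≤ volume {g | ENNReal.ofReal M ≤ f g} := measure_mono h1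
    _ ≤ (∫⁻ g, f g) / ENNReal.ofReal M := h2
    _ ≤ ENNReal.ofReal (VV q X m * X ^ (-a) * ((b - a) + m * (2 * (4 / k1 k * t) * (1 + Real.log (2 * X))))) /
          ENNReal.ofReal M := by
        rw [h3]
        gcongr
    _ = _ := by
        rw [← ENNReal.ofReal_div_of_pos hM0]
        congr 1
        rw [hM, Real.rpow_add hX0, Real.rpow_neg hX0.le ε]
        have h5 : X ^ (-a) ≠ 0 := (Real.rpow_pos_of_pos hX0 _).ne'
        have h6 : X ^ ε ≠ 0 := (Real.rpow_pos_of_pos hX0 _).ne'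
        have h7 : VV q X m ≠ 0 := (VV_pos hX m).ne'
        field_simp

/-- the mean value for almost every exponent of an interval -/
theorem ae_intervalP {q a b t ε : ℝ} {k m : ℕ} (hk : 2 ≤ k) (hq : 0 < q) (hq1 : q < 1) (ha : 1 ≤ a) (hab : a ≤ b)
    (hbk : b < k) (ht : 0 ≤ t) (hε : 0 < ε) (hA : q ^ 2 * k + q * (k - a) < (k : ℝ) - 1) (hB : (1 - q) * k ≤ 1)
    (hC : (k : ℝ) ≤ ∑ i ∈ Finset.range m, q ^ i) :
    ∀ᵐ g : ℝ, g ∈ Icc a b → ∀ᶠ j : ℕ in atTop,
      (TP q ((2 : ℝ) ^ j) k m t g : ℝ) ≤ VV q ((2 : ℝ) ^ j) m * ((2 : ℝ) ^ j) ^ (-a + ε) := by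
  have hX1 : ∀ j : ℕ, (1 : ℝ) ≤ (2 : ℝ) ^ j := fun j => one_le_pow₀ (by norm_num)
  have hev : ∀ᶠ j : ℕ in atTop, ∀ i : ℕ, i ≤ m → CP q a b t k m (lev q ((2 : ℝ) ^ j) i) :=
    (tendsto_pow_atTop_atTop_of_one_lt (by norm_num : (1 : ℝ) < 2)).eventually
      (ev_lev hq hq1 m (ev_CP hk hq hq1 hbk (by linarith) hA))
  obtain ⟨j0, hj0⟩ := eventually_atTop.1 hev
  set t' : ℝ := 4 / k1 k * t with ht'
  set s : ℕ → Set ℝ := fun j => {g | g ∈ Icc a b ∧
    VV q ((2 : ℝ) ^ (j + j0)) m * ((2 : ℝ) ^ (j + j0)) ^ (-a + ε) ≤ TP q ((2 : ℝ) ^ (j + j0)) k m t g} with hs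
  have hsm : ∀ j, volume (s j) ≤ ENNReal.ofReal (((b - a) + m * (2 * t' *
      (1 + Real.log (2 * (2 : ℝ) ^ (j + j0))))) * ((2 : ℝ) ^ (j + j0)) ^ (-ε)) := fun j =>
    badP_le hk hq hq1 (hX1 _) ha hab hbk ht hB hC fun i => hj0 _ (by omega) i i.2.le
  have hsum : Summable fun j : ℕ => (((b - a) + m * (2 * t' * (1 + Real.log (2 * (2 : ℝ) ^ (j + j0))))) *
      ((2 : ℝ) ^ (j + j0)) ^ (-ε)) := by
    refine (summable_nat_add_iff (f := fun j : ℕ => (((b - a) + m * (2 * t' *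
      (1 + Real.log (2 * (2 : ℝ) ^ j)))) * ((2 : ℝ) ^ j) ^ (-ε))) j0).2 ?_
    set r : ℝ := (2 : ℝ) ^ (-ε) with hr
    have hr0 : 0 < r := Real.rpow_pos_of_pos (by norm_num) _
    have hr1 : r < 1 := Real.rpow_lt_one_of_one_lt_of_neg (by norm_num) (by linarith)
    have e1 : ∀ j : ℕ, (((b - a) + m * (2 * t' * (1 + Real.log (2 * (2 : ℝ) ^ j)))) * ((2 : ℝ) ^ j) ^ (-ε)) =
        ((b - a) + m * (2 * t' * (1 + Real.log 2))) * r ^ j +
          (m * (2 * t' * Real.log 2)) * ((j : ℝ) ^ 1 * r ^ j) := by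
      intro j
      have e2 : ((2 : ℝ) ^ j) ^ (-ε) = r ^ j := by
        rw [hr, ← Real.rpow_natCast, ← Real.rpow_natCast, ← Real.rpow_mul (by norm_num), ← Real.rpow_mul (by norm_num)]
        congr 1
        ring
      rw [e2, Real.log_mul (by norm_num) (by positivity), Real.log_pow]
      ring
    simp_rw [e1]
    have s1 : Summable fun j : ℕ => r ^ j := summable_geometric_of_lt_one hr0.le hr1
    have s2 : Summable fun j : ℕ => (j : ℝ) ^ 1 * r ^ j :=
      summable_pow_mul_geometric_of_norm_lt_one 1 (by rw [Real.norm_of_nonneg hr0.le]; exact hr1)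
    exact (s1.mul_left ((b - a) + m * (2 * t' * (1 + Real.log 2)))).add
      (s2.mul_left (m * (2 * t' * Real.log 2)))
  have hne : ∑' j, volume (s j) ≠ ⊤ := by
    refine ne_top_of_le_ne_top hsum.tsum_ofReal_ne_top (ENNReal.tsum_le_tsum hsm)
  filter_upwards [ae_eventually_notMem hne] with g hg hgI
  rw [eventually_atTop] at hg ⊢
  obtain ⟨j1, hj1⟩ := hg
  refine ⟨j1 + j0, fun j hj => ?_⟩
  have h1 := hj1 (j - j0) (by omega)
  have h2 : j - j0 + j0 = j := by omega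
  rw [hs] at h1
  simp only [h2, mem_ofPred_eq, not_and, not_le] at h1
  exact (h1 hgI).le

/-- for almost every exponent close to `k` -/
theorem ae_meanP (k m : ℕ) (hk : 2 ≤ k) {q δ : ℝ} (hq : 0 < q) (hq1 : q < 1) (hδ : 0 < δ) (hδ1 : δ ≤ 1)
    (hA : q ^ 2 * k + δ < (k : ℝ) - 1) (hB : (1 - q) * k ≤ 1) (hC : (k : ℝ) ≤ ∑ i ∈ Finset.range m, q ^ i) :
    ∀ᵐ g : ℝ, k - δ < g → g < k → ∀ ε : ℝ, 0 < ε → ∀ᶠ j : ℕ in atTop,
      (TP q ((2 : ℝ) ^ j) k m m g : ℝ) ≤ VV q ((2 : ℝ) ^ j) m * ((2 : ℝ) ^ j) ^ (-g + ε) := by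
  have hk' : (2 : ℝ) ≤ k := by exact_mod_cast hk
  have key : ∀ᵐ g : ℝ, ∀ a b ε : ℚ, (k - δ < (a : ℝ) ∧ (a : ℝ) ≤ b ∧ (b : ℝ) < k ∧ 0 < (ε : ℝ)) → g ∈ Icc (a : ℝ) b →
      ∀ᶠ j : ℕ in atTop, (TP q ((2 : ℝ) ^ j) k m m g : ℝ) ≤ VV q ((2 : ℝ) ^ j) m * ((2 : ℝ) ^ j) ^ (-(a : ℝ) + ε) := by
    rw [ae_all_iff]
    intro a
    rw [ae_all_iff]
    intro b
    rw [ae_all_iff]
    intro ε
    by_cases h : (k - δ < (a : ℝ) ∧ (a : ℝ) ≤ b ∧ (b : ℝ) < k ∧ 0 < (ε : ℝ))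
    · obtain ⟨h1, h2, h3, h4⟩ := h
      filter_upwards [ae_intervalP (t := m) (a := (a : ℝ)) (b := (b : ℝ)) (ε := (ε : ℝ)) hk hq hq1 (by linarith) h2 h3
        (by positivity) h4 (by nlinarith) hB hC] with g hg _ hI
      exact hg hI
    · exact Eventually.of_forall fun g h' => absurd h' h
  filter_upwards [key] with g hg hg1 hg2 ε hε
  obtain ⟨ε', h1, h2⟩ := exists_rat_btwn (show (0 : ℝ) < ε / 2 by positivity)
  obtain ⟨a, ha1, ha2⟩ := exists_rat_btwn (show max (k - δ) (g - ε / 2) < g by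
    apply max_lt hg1 (by linarith))
  obtain ⟨b, hb1, hb2⟩ := exists_rat_btwn hg2
  have ha1' : k - δ < (a : ℝ) := lt_of_le_of_lt (le_max_left _ _) ha1
  have ha2' : g - ε / 2 < (a : ℝ) := lt_of_le_of_lt (le_max_right _ _) ha1
  filter_upwards [hg a b ε' ⟨ha1', by linarith, hb2, h1⟩ ⟨ha2.le, hb1.le⟩] with j hj
  refine hj.trans ?_
  have hX : (1 : ℝ) ≤ (2 : ℝ) ^ j := one_le_pow₀ (by norm_num)
  apply mul_le_mul_of_nonneg_left _ (VV_pos hX m).le
  exact Real.rpow_le_rpow_of_exponent_le hX (by linarith)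

end Pool.Agent.J4H7.WP
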