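import Pool.Agent.J4H7.WE.C2

set_option autoImplicit false

/-!
# Waring's problem with perturbed powers `n ^ k + ⌊n ^ γ⌋`, part C (helper7)

Exponential sums with `β (z ^ k + z ^ γ)`.
-/

namespace Pool.Agent.J4H7.WP

open Real Set Filter Topology
open Pool.Agent.J4H7.WE
open Pool.Agent.Helper153.Vdc (ee dd Cond ee_norm vdc)

lemma norm_pm {c β : ℝ} (h : c = β ∨ c = -β) (M : ℕ) (φ : ℕ → ℝ) :
    ‖∑ n ∈ Finset.range M, ee (β * φ n)‖ = ‖∑ n ∈ Finset.range M, ee (c * φ n)‖ := by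
  rcases h with rfl | rfl
  · rfl
  · have e3 : ∀ n : ℕ, -β * φ n = -(β * φ n) := fun n => by ring
    simp_rw [e3]
    rw [norm_neg_sum]

/-- **the condition of the derivative test**, general form -/
lemma cond_gen (f : ℕ → ℝ → ℝ) (hf : ∀ i, ∀ z, 0 < z → HasDerivAt (f i) (f (i + 1) z) z) (j : ℕ) {X β lam A e : ℝ}
    (hX : 1 ≤ X) {Y M : ℕ} (hY : 4 * X ≤ Y) (hM : (Y : ℝ) + M ≤ 64 * X + 1) (he : e = 1 ∨ e = -1)
    (hlow : ∀ z, 4 * X ≤ z → z ≤ 64 * X → lam ≤ |β| * (e * f j z) ∧ |β| * (e * f j z) ≤ A * lam)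
    (hs : (∀ z, 4 * X ≤ z → z ≤ 64 * X → 0 ≤ e * f (j + 1) z) ∨ (∀ z, 4 * X ≤ z → z ≤ 64 * X → e * f (j + 1) z ≤ 0)) :
    ∃ g : ℕ → ℝ, ‖∑ n ∈ Finset.range M, ee (β * f 0 ((Y : ℝ) + n))‖ = ‖∑ n ∈ Finset.range M, ee (g n)‖ ∧ Cond j g M lam A := by
  have hX0 : 0 < X := by linarith
  have hY0 : (0 : ℝ) < Y := by linarith
  have hβ : |β| = β ∨ |β| = -β := abs_choice β
  have gen : ∀ (G : ℕ → ℝ → ℝ) (z : ℝ → ℝ), (∀ i < j + 1, ∀ x ∈ Icc (0 : ℝ) ((M : ℝ) - 1), HasDerivAt (G i) (G (i + 1) x) x) →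
      (∀ x ∈ Icc (0 : ℝ) ((M : ℝ) - 1), 4 * X ≤ z x ∧ z x ≤ 64 * X) →
      (∀ x ∈ Icc (0 : ℝ) ((M : ℝ) - 1), G j x = |β| * (e * f j (z x))) →
      (∀ x ∈ Icc (0 : ℝ) ((M : ℝ) - 1), 0 ≤ G (j + 1) x) →
      Cond j (fun n : ℕ => G 0 n) M lam A := by
    intro G z h1 h2 h3 h4
    refine ⟨fun n hn => ?_, fun n hn => ?_⟩
    · have hn' : (n : ℝ) + j ≤ (M : ℝ) - 1 := by
        have : n + j + 1 ≤ M := by omega
        have : ((n + j + 1 : ℕ) : ℝ) ≤ M := by exact_mod_cast this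
        push_cast at this
        linarith
      obtain ⟨ξ, hξ, h5⟩ := dd_deriv j G ((M : ℝ) - 1) (fun i hi => h1 i (by omega)) n hn'
      rw [h5, h3 ξ hξ]
      exact hlow _ (h2 ξ hξ).1 (h2 ξ hξ).2
    · have hn' : (n : ℝ) + ((j + 1 : ℕ) : ℝ) ≤ (M : ℝ) - 1 := by
        have : n + (j + 1) + 1 ≤ M := by omega
        have : ((n + (j + 1) + 1 : ℕ) : ℝ) ≤ M := by exact_mod_cast this
        push_cast at this ⊢
        linarith
      obtain ⟨ξ, hξ, h5⟩ := dd_deriv (j + 1) G ((M : ℝ) - 1) h1 n hn'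
      rw [h5]
      exact h4 ξ hξ
  rcases hs with hs | hs
  · -- forward
    set c : ℝ := |β| * e with hc
    have hcβ : c = β ∨ c = -β := by
      rcases hβ with h | h <;> rcases he with h' | h' <;> rw [hc, h, h'] <;> simp
    refine ⟨fun n : ℕ => c * f 0 (Y + n), norm_pm hcβ M (fun n => f 0 ((Y : ℝ) + n)), ?_⟩
    have key := gen (fun i x => c * f i (Y + x)) (fun x => Y + x)
      (fun i _ x hx => by
        have h1 : HasDerivAt (fun x : ℝ => (Y : ℝ) + x) 1 x := (hasDerivAt_id x).const_add (Y : ℝ)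
        have h2 := (hf i ((Y : ℝ) + x) (by linarith [hx.1])).comp x h1
        rw [mul_one] at h2
        exact h2.const_mul c)
      (fun x hx => ⟨by linarith [hx.1], by linarith [hx.2]⟩)
      (fun x _ => by rw [hc]; ring)
      (fun x hx => by
        have h1 := hs (Y + x) (by linarith [hx.1]) (by linarith [hx.2])
        change 0 ≤ c * f (j + 1) (Y + x)
        rw [hc, mul_assoc]
        exact mul_nonneg (abs_nonneg _) h1)
    exact key
  · -- backward
    set c : ℝ := |β| * e * (-1) ^ j with hc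
    have hcβ : c = β ∨ c = -β := by
      rcases neg_one_pow_eq_or ℝ j with h'' | h'' <;> rcases hβ with h | h <;> rcases he with h' | h' <;>
        rw [hc, h, h', h''] <;> simp
    set Z : ℝ := (Y : ℝ) + M - 1 with hZ
    refine ⟨fun n : ℕ => c * f 0 (Z - n), ?_, ?_⟩
    · have e1 : ∑ n ∈ Finset.range M, ee (β * f 0 ((Y : ℝ) + n)) = ∑ n ∈ Finset.range M, ee (β * f 0 (Z - n)) := by
        rw [← Finset.sum_range_reflect]
        refine Finset.sum_congr rfl fun n hn => ?_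
        have hn' := Finset.mem_range.1 hn
        have e2 : ((M - 1 - n : ℕ) : ℝ) = (M : ℝ) - 1 - n := by
          rw [Nat.cast_sub (by omega), Nat.cast_sub (by omega)]
          simp
        rw [e2, hZ]
        congr 3
        ring
      rw [e1]
      exact norm_pm hcβ M (fun n => f 0 (Z - n))
    · have key := gen (fun i x => c * (-1) ^ i * f i (Z - x)) (fun x => Z - x)
        (fun i _ x hx => by
          have h1 : HasDerivAt (fun x : ℝ => Z - x) (-1) x := (hasDerivAt_id x).const_sub Z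
          have h2 := ((hf i (Z - x) (by rw [hZ]; linarith [hx.2])).comp x h1).const_mul (c * (-1) ^ i)
          refine h2.congr_deriv ?_
          rw [pow_succ]
          ring)
        (fun x hx => ⟨by rw [hZ]; linarith [hx.2], by rw [hZ]; linarith [hx.1]⟩)
        (fun x _ => by
          have h1 : ((-1 : ℝ) ^ j) * (-1) ^ j = 1 := by
            rw [← mul_pow]; simp
          rw [hc]
          calc |β| * e * (-1) ^ j * (-1) ^ j * f j (Z - x) = (((-1 : ℝ) ^ j) * (-1) ^ j) * (|β| * (e * f j (Z - x))) := by ring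
            _ = _ := by rw [h1, one_mul])
        (fun x hx => by
          have h1 := hs (Z - x) (by rw [hZ]; linarith [hx.2]) (by rw [hZ]; linarith [hx.1])
          have h2 : ((-1 : ℝ) ^ j) * (-1) ^ j = 1 := by
            rw [← mul_pow]; simp
          change 0 ≤ c * (-1) ^ (j + 1) * f (j + 1) (Z - x)
          have h3 : c * (-1) ^ (j + 1) * f (j + 1) (Z - x) = (((-1 : ℝ) ^ j) * (-1) ^ j) * (|β| * -(e * f (j + 1) (Z - x))) := by
            rw [hc, pow_succ]
            ring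
          rw [h3, h2, one_mul]
          exact mul_nonneg (abs_nonneg _) (by linarith))
      have e4 : (fun n : ℕ => c * (-1) ^ 0 * f 0 (Z - (n : ℝ))) = fun n : ℕ => c * f 0 (Z - n) := by
        funext n
        simp
      rw [e4] at key
      exact key

/-- the numerical part of the derivative test -/
lemma vdc_num (j : ℕ) (hj : 2 ≤ j) {A η : ℝ} (hA : 1 ≤ A) (hη : 0 < η) (hη1 : η < 1) :
    ∃ σ : ℝ, 0 < σ ∧ σ ≤ 1 ∧ ∃ C : ℝ, 1 ≤ C ∧ ∀ κ : ℝ, 0 < κ → ∃ X0 : ℝ, 2 ≤ X0 ∧ ∀ X : ℝ, X0 ≤ X → ∀ B : ℝ,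
      X ^ ((j : ℝ) - 2 + 2 * η) ≤ B → B ≤ X ^ ((j : ℝ) - 2 * η) → ∀ (M : ℕ) (g : ℕ → ℝ), (M : ℝ) ≤ 64 * X →
      Cond j g M (κ * B * X ^ (-(j : ℝ))) A → ‖∑ n ∈ Finset.range M, ee (g n)‖ ≤ C * X ^ (1 - σ) := by
  obtain ⟨σ', hσ', C, hC, H⟩ := vdc j hj A hA η hη hη1
  set σ := min σ' 1 with hσ
  have hσ0 : 0 < σ := lt_min hσ' one_pos
  have hσ1 : σ ≤ 1 := min_le_right _ _
  refine ⟨σ, hσ0, hσ1, C * 65, by linarith, ?_⟩
  intro κ hκ0
  obtain ⟨X1, hX1⟩ := eventually_atTop.1 ((tendsto_rpow_atTop hη).eventually_ge_atTop (max (1 / κ) (65 ^ η * κ)))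
  refine ⟨max X1 2, le_max_right _ _, ?_⟩
  intro X hX B h1 h2 M g hM hg2
  have hX2 : 2 ≤ X := (le_max_right _ _).trans hX
  have hX0 : 0 < X := by linarith
  have hXη := hX1 X ((le_max_left _ _).trans hX)
  have hXa : 1 / κ ≤ X ^ η := (le_max_left _ _).trans hXη
  have hXb : 65 ^ η * κ ≤ X ^ η := (le_max_right _ _).trans hXη
  set N := ⌈64 * X⌉₊ with hN
  have hNl : 64 * X ≤ N := Nat.le_ceil _
  have hNu : (N : ℝ) ≤ 65 * X := by
    have := Nat.ceil_lt_add_one (show 0 ≤ 64 * X by linarith)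
    rw [← hN] at this
    linarith
  have hN0 : (0 : ℝ) < N := by linarith
  have hN1 : 1 ≤ N := by
    have : (1 : ℝ) ≤ N := by linarith
    exact_mod_cast this
  have hMN : M ≤ N := by
    have h3 : (M : ℝ) ≤ N := by linarith
    exact_mod_cast h3
  have hk0 : 0 < X ^ (-(j : ℝ)) := Real.rpow_pos_of_pos hX0 _
  have l1 : (N : ℝ) ^ (-2 + η) ≤ κ * B * X ^ (-(j : ℝ)) := by
    calc (N : ℝ) ^ (-2 + η) ≤ X ^ (-2 + η) := Real.rpow_le_rpow_of_nonpos hX0 (by linarith) (by linarith)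
      _ = 1 * X ^ (-2 + η) := (one_mul _).symm
      _ ≤ (κ * X ^ η) * X ^ (-2 + η) := by
        apply mul_le_mul_of_nonneg_right _ (Real.rpow_pos_of_pos hX0 _).le
        rw [div_le_iff₀ hκ0] at hXa
        linarith
      _ = κ * X ^ ((j : ℝ) - 2 + 2 * η) * X ^ (-(j : ℝ)) := by
        have e6 : X ^ η * X ^ (-2 + η) = X ^ ((j : ℝ) - 2 + 2 * η) * X ^ (-(j : ℝ)) := by
          rw [← Real.rpow_add hX0, ← Real.rpow_add hX0]
          congr 1
          ring
        rw [mul_assoc κ, e6]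
        ring
      _ ≤ _ := by
        apply mul_le_mul_of_nonneg_right _ hk0.le
        exact mul_le_mul_of_nonneg_left h1 hκ0.le
  have l2 : κ * B * X ^ (-(j : ℝ)) ≤ (N : ℝ) ^ (-η) := by
    have h65 : (0 : ℝ) < 65 ^ η := Real.rpow_pos_of_pos (by norm_num) _
    have hXη0 : 0 < X ^ η := Real.rpow_pos_of_pos hX0 _
    calc κ * B * X ^ (-(j : ℝ)) ≤ κ * X ^ ((j : ℝ) - 2 * η) * X ^ (-(j : ℝ)) := by
          apply mul_le_mul_of_nonneg_right _ hk0.le
          exact mul_le_mul_of_nonneg_left h2 hκ0.le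
      _ = κ * X ^ (-(2 * η)) := by
          rw [mul_assoc, ← Real.rpow_add hX0]
          congr 2
          ring
      _ = (κ * 65 ^ η) * X ^ (-η) * ((65 : ℝ) ^ (-η) * X ^ (-η)) := by
          rw [Real.rpow_neg (by norm_num : (0 : ℝ) ≤ 65), show -(2 * η) = -η + -η by ring, Real.rpow_add hX0]
          field_simp
      _ ≤ 1 * ((65 : ℝ) ^ (-η) * X ^ (-η)) := by
          apply mul_le_mul_of_nonneg_right
          · rw [Real.rpow_neg hX0.le, ← div_eq_mul_inv, div_le_one hXη0]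
            linarith
          · exact mul_nonneg (Real.rpow_nonneg (by norm_num) _) (Real.rpow_nonneg hX0.le _)
      _ = (65 * X) ^ (-η) := by
          rw [one_mul, Real.mul_rpow (by norm_num) hX0.le]
      _ ≤ (N : ℝ) ^ (-η) := Real.rpow_le_rpow_of_nonpos hN0 hNu (by linarith)
  refine (H N M g _ hN1 hMN hg2 l1 l2).trans ?_
  have hN1' : (1 : ℝ) ≤ N := by exact_mod_cast hN1
  calc C * (N : ℝ) ^ (1 - σ') ≤ C * (N : ℝ) ^ (1 - σ) := by
        apply mul_le_mul_of_nonneg_left _ (by linarith)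
        exact Real.rpow_le_rpow_of_exponent_le hN1' (by linarith [min_le_left σ' 1])
    _ ≤ C * (65 * X) ^ (1 - σ) := by
        apply mul_le_mul_of_nonneg_left _ (by linarith)
        exact Real.rpow_le_rpow hN0.le hNu (by linarith)
    _ = C * ((65 : ℝ) ^ (1 - σ) * X ^ (1 - σ)) := by rw [Real.mul_rpow (by norm_num) hX0.le]
    _ ≤ C * (65 * X ^ (1 - σ)) := by
        apply mul_le_mul_of_nonneg_left _ (by linarith)
        apply mul_le_mul_of_nonneg_right _ (Real.rpow_nonneg hX0.le _)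
        calc (65 : ℝ) ^ (1 - σ) ≤ 65 ^ (1 : ℝ) := Real.rpow_le_rpow_of_exponent_le (by norm_num) (by linarith)
          _ = 65 := Real.rpow_one _
    _ = _ := by ring

/-- the derivatives of `z ^ k + z ^ γ` -/
noncomputable def dv (k : ℕ) (g : ℝ) (i : ℕ) (z : ℝ) : ℝ := ff k i * z ^ ((k : ℝ) - i) + ff g i * z ^ (g - i)

lemma dv_zero (k : ℕ) (g z : ℝ) : dv k g 0 z = z ^ k + z ^ g := by
  unfold dv ff
  simp

lemma pow_deriv (θ : ℝ) (i : ℕ) {z : ℝ} (hz : 0 < z) :
    HasDerivAt (fun z : ℝ => ff θ i * z ^ (θ - i)) (ff θ (i + 1) * z ^ (θ - ((i + 1 : ℕ) : ℝ))) z := by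
  have h2 := (Real.hasDerivAt_rpow_const (x := z) (p := θ - i) (Or.inl hz.ne')).const_mul (ff θ i)
  refine h2.congr_deriv ?_
  rw [ff_succ, show θ - ((i + 1 : ℕ) : ℝ) = θ - i - 1 by push_cast; ring]
  ring

lemma dv_deriv (k : ℕ) (g : ℝ) (i : ℕ) (z : ℝ) (hz : 0 < z) : HasDerivAt (dv k g i) (dv k g (i + 1) z) z :=
  (pow_deriv (k : ℝ) i hz).add (pow_deriv g i hz)

lemma ff_pos {θ : ℝ} {i : ℕ} (h : (i : ℝ) - 1 < θ) : 0 < ff θ i := by
  unfold ff
  apply Finset.prod_pos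
  intro a ha
  have : (a : ℝ) + 1 ≤ i := by exact_mod_cast Finset.mem_range.1 ha
  linarith

lemma ff_mono {θ θ' : ℝ} {i : ℕ} (h : (i : ℝ) - 1 < θ) (h' : θ ≤ θ') : ff θ i ≤ ff θ' i := by
  unfold ff
  apply Finset.prod_le_prod
  · intro a ha
    have : (a : ℝ) + 1 ≤ i := by exact_mod_cast Finset.mem_range.1 ha
    linarith
  · intro a _
    linarith

lemma ff_nat_zero {k i : ℕ} (h : k < i) : ff (k : ℝ) i = 0 := by
  unfold ff
  apply Finset.prod_eq_zero (Finset.mem_range.2 h)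
  ring

lemma ff_ne' {k : ℕ} {g : ℝ} (h1 : (k : ℝ) - 1 < g) (h2 : g < k) (i : ℕ) : ff g i ≠ 0 := by
  apply ff_ne
  intro n hn
  rw [hn] at h1 h2
  have h3 : n < k := by exact_mod_cast h2
  have h4 : (n : ℝ) + 1 ≤ k := by exact_mod_cast h3
  linarith

/-- the growth exponent -/
noncomputable def wt (k : ℕ) (g : ℝ) (j : ℕ) : ℝ := if j ≤ k then k else g

/-- the sum -/
noncomputable def SP (k : ℕ) (g : ℝ) (Y M : ℕ) (β : ℝ) : ℂ :=
  ∑ n ∈ Finset.range M, ee (β * (((Y : ℝ) + n) ^ k + ((Y : ℝ) + n) ^ g))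

/-- one derivative test -/
lemma SP_one (k : ℕ) (j : ℕ) (hj : 2 ≤ j) {η : ℝ} (hη : 0 < η) (hη1 : η < 1) :
    ∃ σ : ℝ, 0 < σ ∧ σ ≤ 1 ∧ ∀ g : ℝ, k - 1 < g → 0 ≤ g → g < k → ∃ C : ℝ, 1 ≤ C ∧ ∃ X0 : ℝ, 2 ≤ X0 ∧ ∀ X : ℝ, X0 ≤ X →
      ∀ β : ℝ, X ^ ((j : ℝ) - 2 + 2 * η) ≤ |β| * X ^ (wt k g j) → |β| * X ^ (wt k g j) ≤ X ^ ((j : ℝ) - 2 * η) →
      ∀ Y M : ℕ, 4 * X ≤ Y → (Y : ℝ) + M ≤ 64 * X + 1 → ‖SP k g Y M β‖ ≤ C * X ^ (1 - σ) := by
  have hA : (1 : ℝ) ≤ 2 * 16 ^ (k + j) := by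
    have : (1 : ℝ) ≤ 16 ^ (k + j) := one_le_pow₀ (by norm_num)
    linarith
  obtain ⟨σ, hσ, hσ1, C, hC, H⟩ := vdc_num j hj hA hη hη1
  refine ⟨σ, hσ, hσ1, fun g hg1 hg0 hg2 => ⟨C, hC, ?_⟩⟩
  have hgne := ff_ne' hg1 hg2
  -- the data of the test
  obtain ⟨κ, hκ, e, he, hdat⟩ : ∃ κ : ℝ, 0 < κ ∧ ∃ e : ℝ, (e = 1 ∨ e = -1) ∧ ∀ X : ℝ, 1 ≤ X →
      (∀ z, 4 * X ≤ z → z ≤ 64 * X → κ * (X ^ (wt k g j) * X ^ (-(j : ℝ))) ≤ e * dv k g j z ∧
        e * dv k g j z ≤ (2 * 16 ^ (k + j)) * (κ * (X ^ (wt k g j) * X ^ (-(j : ℝ))))) ∧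
      ((∀ z, 4 * X ≤ z → z ≤ 64 * X → 0 ≤ e * dv k g (j + 1) z) ∨ (∀ z, 4 * X ≤ z → z ≤ 64 * X → e * dv k g (j + 1) z ≤ 0)) := by
    by_cases hjk : j ≤ k
    · have hjk' : (j : ℝ) ≤ k := by exact_mod_cast hjk
      have p1 : 0 < ff (k : ℝ) j := ff_pos (by linarith)
      have p2 : 0 < ff g j := ff_pos (by linarith)
      have p3 : ff g j ≤ ff (k : ℝ) j := ff_mono (by linarith) hg2.le
      refine ⟨ff k j * 4 ^ ((k : ℝ) - j), by positivity, 1, Or.inl rfl, fun X hX => ⟨fun z hz1 hz2 => ?_, ?_⟩⟩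
      · have hX0 : 0 < X := by linarith
        have hz0 : 0 < z := by linarith
        have e1 : X ^ (wt k g j) * X ^ (-(j : ℝ)) = X ^ ((k : ℝ) - j) := by
          unfold wt
          rw [if_pos hjk, ← Real.rpow_add hX0]
          congr 1
        have h1 : 4 ^ ((k : ℝ) - j) * X ^ ((k : ℝ) - j) ≤ z ^ ((k : ℝ) - j) := by
          rw [← Real.mul_rpow (by norm_num) hX0.le]
          exact Real.rpow_le_rpow (by linarith) hz1 (by linarith)
        have h2 : z ^ ((k : ℝ) - j) ≤ 16 ^ ((k : ℝ) - j) * (4 ^ ((k : ℝ) - j) * X ^ ((k : ℝ) - j)) := by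
          rw [← mul_assoc, ← Real.mul_rpow (by norm_num) (by norm_num), ← Real.mul_rpow (by norm_num) hX0.le]
          exact Real.rpow_le_rpow hz0.le (by linarith) (by linarith)
        have h3 : z ^ (g - j) ≤ z ^ ((k : ℝ) - j) := Real.rpow_le_rpow_of_exponent_le (by linarith) (by linarith)
        have h4 : 0 ≤ z ^ (g - j) := Real.rpow_nonneg hz0.le _
        have h5 : 0 < z ^ ((k : ℝ) - j) := Real.rpow_pos_of_pos hz0 _
        have h6 : (16 : ℝ) ^ ((k : ℝ) - j) ≤ 16 ^ (k + j) := by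
          rw [← Real.rpow_natCast 16 (k + j)]
          apply Real.rpow_le_rpow_of_exponent_le (by norm_num)
          push_cast
          have : (0 : ℝ) ≤ j := Nat.cast_nonneg j
          linarith
        have h7 : 0 < 4 ^ ((k : ℝ) - j) * X ^ ((k : ℝ) - j) := by positivity
        rw [e1, one_mul]
        unfold dv
        constructor
        · calc ff k j * 4 ^ ((k : ℝ) - j) * X ^ ((k : ℝ) - j) = ff k j * (4 ^ ((k : ℝ) - j) * X ^ ((k : ℝ) - j)) := by ring
            _ ≤ ff k j * z ^ ((k : ℝ) - j) := mul_le_mul_of_nonneg_left h1 p1.le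
            _ ≤ _ := by
              have := mul_nonneg p2.le h4
              linarith
        · calc ff k j * z ^ ((k : ℝ) - j) + ff g j * z ^ (g - j) ≤ ff k j * z ^ ((k : ℝ) - j) + ff k j * z ^ ((k : ℝ) - j) := by
                have := mul_le_mul p3 h3 h4 p1.le
                linarith
            _ = 2 * (ff k j * z ^ ((k : ℝ) - j)) := by ring
            _ ≤ 2 * (ff k j * (16 ^ ((k : ℝ) - j) * (4 ^ ((k : ℝ) - j) * X ^ ((k : ℝ) - j)))) := by
                apply mul_le_mul_of_nonneg_left _ (by norm_num)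
                exact mul_le_mul_of_nonneg_left h2 p1.le
            _ ≤ 2 * (ff k j * (16 ^ (k + j) * (4 ^ ((k : ℝ) - j) * X ^ ((k : ℝ) - j)))) := by
                apply mul_le_mul_of_nonneg_left _ (by norm_num)
                apply mul_le_mul_of_nonneg_left _ p1.le
                exact mul_le_mul_of_nonneg_right h6 h7.le
            _ = _ := by ring
      · rcases Nat.lt_or_ge j k with hlt | hge
        · left
          intro z hz1 hz2
          have hz0 : 0 < z := by linarith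
          have hlt' : (j : ℝ) + 1 ≤ k := by exact_mod_cast hlt
          have q1 : 0 < ff (k : ℝ) (j + 1) := ff_pos (by push_cast; linarith)
          have q2 : 0 < ff g (j + 1) := ff_pos (by push_cast; linarith)
          rw [one_mul]
          unfold dv
          have := Real.rpow_pos_of_pos hz0 ((k : ℝ) - ((j + 1 : ℕ) : ℝ))
          have := Real.rpow_pos_of_pos hz0 (g - ((j + 1 : ℕ) : ℝ))
          positivity
        · right
          intro z hz1 hz2
          have hz0 : 0 < z := by linarith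
          have hje : j = k := by omega
          subst hje
          rw [one_mul]
          unfold dv
          rw [ff_nat_zero (Nat.lt_succ_self _), zero_mul, zero_add, ff_succ]
          have := Real.rpow_pos_of_pos hz0 (g - ((j + 1 : ℕ) : ℝ))
          have h8 : ff g j * (g - j) ≤ 0 := mul_nonpos_of_nonneg_of_nonpos p2.le (by linarith)
          exact mul_nonpos_of_nonpos_of_nonneg h8 this.le
    · push Not at hjk
      have hjk' : (k : ℝ) + 1 ≤ j := by exact_mod_cast hjk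
      set e : ℝ := if 0 < ff g j then 1 else -1 with he
      have he1 : e = 1 ∨ e = -1 := by
        by_cases h : 0 < ff g j
        · left; rw [he, if_pos h]
        · right; rw [he, if_neg h]
      have hef : e * ff g j = |ff g j| := by
        by_cases h : 0 < ff g j
        · rw [he, if_pos h, abs_of_pos h, one_mul]
        · rw [he, if_neg h, abs_of_nonpos (not_lt.1 h)]
          ring
      have hfa : 0 < |ff g j| := abs_pos.2 (hgne j)
      have hmin : 0 < min ((4 : ℝ) ^ (g - j)) ((64 : ℝ) ^ (g - j)) :=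
        lt_min (Real.rpow_pos_of_pos (by norm_num) _) (Real.rpow_pos_of_pos (by norm_num) _)
      refine ⟨|ff g j| * min ((4 : ℝ) ^ (g - j)) ((64 : ℝ) ^ (g - j)), mul_pos hfa hmin, e, he1, fun X hX => ⟨fun z hz1 hz2 => ?_, ?_⟩⟩
      · have hX0 : 0 < X := by linarith
        have hz0 : 0 < z := by linarith
        have e1 : X ^ (wt k g j) * X ^ (-(j : ℝ)) = X ^ (g - j) := by
          unfold wt
          rw [if_neg (by omega), ← Real.rpow_add hX0]
          congr 1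
        obtain ⟨g1, g2⟩ := rpow_range (s := g - j) hX0 hz1 hz2
        have e2 : e * dv k g j z = |ff g j| * z ^ (g - j) := by
          unfold dv
          rw [ff_nat_zero hjk, zero_mul, zero_add, ← mul_assoc, hef]
        have hXs : 0 < X ^ (g - j) := Real.rpow_pos_of_pos hX0 _
        have h6 : (16 : ℝ) ^ |g - j| ≤ 2 * 16 ^ (k + j) := by
          have h7 : (16 : ℝ) ^ |g - j| ≤ 16 ^ (k + j) := by
            rw [← Real.rpow_natCast 16 (k + j)]
            apply Real.rpow_le_rpow_of_exponent_le (by norm_num)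
            push_cast
            rw [abs_of_nonpos (by linarith)]
            have : (0 : ℝ) ≤ k := Nat.cast_nonneg k
            linarith
          have : (0 : ℝ) ≤ 16 ^ (k + j) := by positivity
          linarith
        rw [e1, e2]
        constructor
        · calc |ff g j| * min ((4 : ℝ) ^ (g - j)) ((64 : ℝ) ^ (g - j)) * X ^ (g - j) =
              |ff g j| * (min ((4 : ℝ) ^ (g - j)) ((64 : ℝ) ^ (g - j)) * X ^ (g - j)) := by ring
            _ ≤ _ := mul_le_mul_of_nonneg_left g1 hfa.le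
        · calc |ff g j| * z ^ (g - j) ≤ |ff g j| * ((16 : ℝ) ^ |g - j| *
                (min ((4 : ℝ) ^ (g - j)) ((64 : ℝ) ^ (g - j)) * X ^ (g - j))) := mul_le_mul_of_nonneg_left g2 hfa.le
            _ ≤ |ff g j| * ((2 * 16 ^ (k + j)) * (min ((4 : ℝ) ^ (g - j)) ((64 : ℝ) ^ (g - j)) * X ^ (g - j))) := by
                apply mul_le_mul_of_nonneg_left _ hfa.le
                exact mul_le_mul_of_nonneg_right h6 (by positivity)
            _ = _ := by ring
      · right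
        intro z hz1 hz2
        have hz0 : 0 < z := by linarith
        have e2 : e * dv k g (j + 1) z = |ff g j| * (g - j) * z ^ (g - ((j + 1 : ℕ) : ℝ)) := by
          unfold dv
          rw [ff_nat_zero (by omega), zero_mul, zero_add, ff_succ, ← hef]
          ring
        rw [e2]
        have := Real.rpow_pos_of_pos hz0 (g - ((j + 1 : ℕ) : ℝ))
        have h8 : |ff g j| * (g - j) ≤ 0 := mul_nonpos_of_nonneg_of_nonpos hfa.le (by linarith)
        exact mul_nonpos_of_nonpos_of_nonneg h8 this.le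
  obtain ⟨X0, hX0, H'⟩ := H κ hκ
  refine ⟨X0, hX0, ?_⟩
  intro X hX β hb1 hb2 Y M hY hM
  have hX1 : 1 ≤ X := by linarith
  obtain ⟨hd1, hd2⟩ := hdat X hX1
  obtain ⟨φ, hφ1, hφ2⟩ := cond_gen (dv k g) (dv_deriv k g) j (β := β)
    (lam := κ * (|β| * X ^ (wt k g j)) * X ^ (-(j : ℝ))) (A := 2 * 16 ^ (k + j)) hX1 hY hM he
    (fun z hz1 hz2 => by
      obtain ⟨g1, g2⟩ := hd1 z hz1 hz2
      have hb := abs_nonneg β
      constructor
      · calc κ * (|β| * X ^ (wt k g j)) * X ^ (-(j : ℝ)) = |β| * (κ * (X ^ (wt k g j) * X ^ (-(j : ℝ)))) := by ring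
          _ ≤ _ := mul_le_mul_of_nonneg_left g1 hb
      · calc |β| * (e * dv k g j z) ≤ |β| * ((2 * 16 ^ (k + j)) * (κ * (X ^ (wt k g j) * X ^ (-(j : ℝ))))) :=
              mul_le_mul_of_nonneg_left g2 hb
          _ = _ := by ring) hd2
  have e1 : ‖SP k g Y M β‖ = ‖∑ n ∈ Finset.range M, ee (φ n)‖ := by
    rw [← hφ1]
    unfold SP
    simp_rw [dv_zero]
  rw [e1]
  refine H' X hX _ hb1 hb2 M φ ?_ hφ2
  have : (4 : ℝ) ≤ Y := by linarith
  linarith

end Pool.Agent.J4H7.WP
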