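import Pool.Agent.J4H7.WP.C

set_option autoImplicit false

/-!
# Waring's problem with perturbed powers `n ^ k + ⌊n ^ γ⌋`, part D (helper7)

All frequencies; the weighted sum over `⌊z ^ k + z ^ γ⌋`.
-/

namespace Pool.Agent.J4H7.WP

open Real Set Filter Topology
open Pool.Agent.J4H7.WE
open Pool.Agent.Helper153.Vdc (ee ee_norm)

lemma SP_all (k : ℕ) {η : ℝ} (hη : 0 < η) (hη1 : η < 1) (J : ℕ) :
    ∃ σ : ℝ, 0 < σ ∧ σ ≤ 1 ∧ ∀ g : ℝ, k - 1 < g → 0 ≤ g → g < k → ∃ C : ℝ, 1 ≤ C ∧ ∃ X0 : ℝ, 2 ≤ X0 ∧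
      ∀ j : ℕ, 2 ≤ j → j ≤ J → ∀ X : ℝ, X0 ≤ X →
      ∀ β : ℝ, X ^ ((j : ℝ) - 2 + 2 * η) ≤ |β| * X ^ (wt k g j) → |β| * X ^ (wt k g j) ≤ X ^ ((j : ℝ) - 2 * η) →
      ∀ Y M : ℕ, 4 * X ≤ Y → (Y : ℝ) + M ≤ 64 * X + 1 → ‖SP k g Y M β‖ ≤ C * X ^ (1 - σ) := by
  induction J with
  | zero =>
    exact ⟨1, one_pos, le_rfl, fun g _ _ _ => ⟨1, le_rfl, 2, le_rfl, fun j h1 h2 => by omega⟩⟩
  | succ J ih =>
    obtain ⟨σ1, h1, h1', H1⟩ := ih
    by_cases hJ : 2 ≤ J + 1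
    · obtain ⟨σ2, h2, h2', H2⟩ := SP_one k (J + 1) hJ hη hη1
      refine ⟨min σ1 σ2, lt_min h1 h2, (min_le_left _ _).trans h1', fun g hg1 hg0 hg2 => ?_⟩
      obtain ⟨C1, hC1, X1, hX1, H1⟩ := H1 g hg1 hg0 hg2
      obtain ⟨C2, hC2, X2, hX2, H2⟩ := H2 g hg1 hg0 hg2
      refine ⟨max C1 C2, hC1.trans (le_max_left _ _), max X1 X2, hX1.trans (le_max_left _ _), ?_⟩
      intro j hj hjJ X hX β hb1 hb2 Y M hY hM
      have hXp : (1 : ℝ) ≤ X := by linarith [(le_max_left X1 X2).trans hX]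
      have hpos : ∀ s : ℝ, 0 ≤ X ^ s := fun s => Real.rpow_nonneg (by linarith) s
      rcases Nat.lt_or_ge j (J + 1) with hlt | hge
      · refine (H1 j hj (by omega) X ((le_max_left _ _).trans hX) β hb1 hb2 Y M hY hM).trans ?_
        refine mul_le_mul (le_max_left _ _) ?_ (hpos _) (by linarith [le_max_left C1 C2])
        exact Real.rpow_le_rpow_of_exponent_le hXp (by linarith [min_le_left σ1 σ2])
      · have hje : j = J + 1 := by omega
        subst hje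
        refine (H2 X ((le_max_right _ _).trans hX) β hb1 hb2 Y M hY hM).trans ?_
        refine mul_le_mul (le_max_right _ _) ?_ (hpos _) (by linarith [le_max_left C1 C2])
        exact Real.rpow_le_rpow_of_exponent_le hXp (by linarith [min_le_right σ1 σ2])
    · refine ⟨σ1, h1, h1', fun g hg1 hg0 hg2 => ?_⟩
      obtain ⟨C1, hC1, X1, hX1, H1⟩ := H1 g hg1 hg0 hg2
      exact ⟨C1, hC1, X1, hX1, fun j h3 h4 => by omega⟩

/-- **the exponential sums**, with a saving uniform in `γ` -/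
theorem ESP (k : ℕ) (hk : 2 ≤ k) {η : ℝ} (hη : 0 < η) (hη1 : η ≤ 1 / 8) :
    ∃ σ : ℝ, 0 < σ ∧ σ ≤ 1 ∧ ∀ g : ℝ, k - 1 / 2 < g → g < k → ∃ C : ℝ, 1 ≤ C ∧ ∃ X0 : ℝ, 2 ≤ X0 ∧ ∀ X : ℝ, X0 ≤ X →
      ∀ β : ℝ, X ^ (2 * η) ≤ |β| * X ^ (k : ℝ) → |β| * X ^ (k : ℝ) ≤ X ^ ((k : ℝ) + 2) → ∀ Y M : ℕ, 4 * X ≤ Y →
      (Y : ℝ) + M ≤ 64 * X + 1 → ‖SP k g Y M β‖ ≤ C * X ^ (1 - σ) := by
  have hk' : (2 : ℝ) ≤ k := by exact_mod_cast hk
  obtain ⟨σ, h1, h2, H⟩ := SP_all k hη (by linarith) (k + 4)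
  refine ⟨σ, h1, h2, fun g hg1 hg2 => ?_⟩
  obtain ⟨C, hC, X0, hX0, H⟩ := H g (by linarith) (by linarith) hg2
  refine ⟨C, hC, X0, hX0, ?_⟩
  intro X hX β hb1 hb2 Y M hY hM
  have hX2 : 2 ≤ X := hX0.trans hX
  have hX1 : 1 ≤ X := by linarith
  have hXp : 0 < X := by linarith
  have hl : 0 < Real.log X := Real.log_pos (by linarith)
  have hpos : 0 < |β| * X ^ (k : ℝ) := lt_of_lt_of_le (Real.rpow_pos_of_pos hXp _) hb1
  set μ : ℝ := Real.log (|β| * X ^ (k : ℝ)) / Real.log X with hμ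
  have hXμ : X ^ μ = |β| * X ^ (k : ℝ) := by
    rw [Real.rpow_def_of_pos hXp, hμ, mul_div_cancel₀ _ hl.ne', Real.exp_log hpos]
  have m1 : 2 * η ≤ μ := by
    rw [← hXμ] at hb1
    exact (Real.rpow_le_rpow_left_iff (by linarith)).1 hb1
  have m2 : μ ≤ k + 2 := by
    rw [← hXμ] at hb2
    exact (Real.rpow_le_rpow_left_iff (by linarith)).1 hb2
  -- general application
  have app : ∀ (j : ℕ) (ν : ℝ), 2 ≤ j → j ≤ k + 4 → |β| * X ^ (wt k g j) = X ^ ν → (j : ℝ) - 2 + 2 * η ≤ ν → ν ≤ j - 2 * η →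
      ‖SP k g Y M β‖ ≤ C * X ^ (1 - σ) := by
    intro j ν hj hj2 he g1 g2
    refine H j hj hj2 X hX β ?_ ?_ Y M hY hM
    · rw [he]
      exact Real.rpow_le_rpow_of_exponent_le hX1 g1
    · rw [he]
      exact Real.rpow_le_rpow_of_exponent_le hX1 g2
  rcases le_or_gt μ (k - 2 * η) with hA | hA
  · rcases le_or_gt μ (2 - 2 * η) with h3 | h3
    · refine app 2 μ le_rfl (by omega) ?_ (by push_cast; linarith) (by push_cast; linarith)
      unfold wt
      rw [if_pos hk, hXμ]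
    · set j := ⌈μ + 2 * η⌉₊ with hj
      have k1 : μ + 2 * η ≤ j := Nat.le_ceil _
      have k2 : (j : ℝ) < μ + 2 * η + 1 := Nat.ceil_lt_add_one (by linarith)
      have k3 : 2 ≤ j := by
        have : (2 : ℝ) < j := by linarith
        have : 2 < j := by exact_mod_cast this
        omega
      have k4 : j ≤ k := by
        have : (j : ℝ) < ((k + 1 : ℕ) : ℝ) := by
          push_cast
          linarith
        have : j < k + 1 := by exact_mod_cast this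
        omega
      refine app j μ k3 (by omega) ?_ (by linarith) (by linarith)
      unfold wt
      rw [if_pos k4, hXμ]
  · set ν : ℝ := μ - (k - g) with hν
    have hXν : |β| * X ^ g = X ^ ν := by
      rw [hν, Real.rpow_sub hXp, hXμ, Real.rpow_sub hXp]
      have h5 : X ^ (k : ℝ) ≠ 0 := (Real.rpow_pos_of_pos hXp _).ne'
      field_simp
    rcases le_or_gt ν ((k : ℝ) + 1 - 2 * η) with h3 | h3
    · refine app (k + 1) ν (by omega) (by omega) ?_ (by push_cast; linarith) (by push_cast; linarith)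
      unfold wt
      rw [if_neg (by omega), hXν]
    · set j := ⌈ν + 2 * η⌉₊ with hj
      have k1 : ν + 2 * η ≤ j := Nat.le_ceil _
      have k2 : (j : ℝ) < ν + 2 * η + 1 := Nat.ceil_lt_add_one (by linarith)
      have k3 : k + 1 < j := by
        have : ((k + 1 : ℕ) : ℝ) < j := by
          push_cast
          linarith
        exact_mod_cast this
      have k4 : j ≤ k + 4 := by
        have : (j : ℝ) < ((k + 5 : ℕ) : ℝ) := by
          push_cast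
          linarith
        have : j < k + 5 := by exact_mod_cast this
        omega
      refine app j ν (by omega) k4 ?_ (by linarith) (by linarith)
      unfold wt
      rw [if_neg (by omega), hXν]

/-- the weighted sum -/
noncomputable def GP (k : ℕ) (g : ℝ) (Y M : ℕ) (α : ℝ) : ℂ :=
  ∑ n ∈ Finset.range M, ((ww (((Y : ℝ) + n) ^ k + ((Y : ℝ) + n) ^ g) : ℝ) : ℂ) *
    ee (α * (⌊((Y : ℝ) + n) ^ k + ((Y : ℝ) + n) ^ g⌋₊ : ℝ))

lemma SP_triv (k : ℕ) (g : ℝ) (Y M : ℕ) (ξ : ℝ) : ‖SP k g Y M ξ‖ ≤ M := by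
  unfold SP
  refine (norm_sum_le _ _).trans ?_
  simp_rw [ee_norm]
  simp

lemma GP_hasSum (k : ℕ) (g : ℝ) (Y M : ℕ) {α : ℝ} (hα : |α| ≤ 1 / 2) :
    HasSum (fun h : ℤ => cf α h * SP k g Y M (h + α)) (GP k g Y M α) := by
  have h1 : ∀ n ∈ Finset.range M, HasSum (fun h : ℤ => cf α h * ee ((h + α) * (((Y : ℝ) + n) ^ k + ((Y : ℝ) + n) ^ g)))
      (((ww (((Y : ℝ) + n) ^ k + ((Y : ℝ) + n) ^ g) : ℝ) : ℂ) * ee (α * (⌊((Y : ℝ) + n) ^ k + ((Y : ℝ) + n) ^ g⌋₊ : ℝ))) := by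
    intro n _
    set t : ℝ := ((Y : ℝ) + n) ^ k + ((Y : ℝ) + n) ^ g with ht
    have ht0 : 0 ≤ t := add_nonneg (by positivity) (Real.rpow_nonneg (by positivity) _)
    have h2 := (fourier_ww hα t).mul_right (ee (α * t))
    have e1 : (ww t : ℂ) * ee (-(α * Int.fract t)) * ee (α * t) = (ww t : ℂ) * ee (α * (⌊t⌋₊ : ℝ)) := by
      rw [mul_assoc, ← ee_add]
      congr 2
      have : (⌊t⌋₊ : ℝ) = (⌊t⌋ : ℝ) := natCast_floor_eq_intCast_floor ht0
      rw [this, Int.fract]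
      ring
    rw [e1] at h2
    refine h2.congr_fun ?_
    intro h
    rw [mul_assoc (cf α h), ← ee_add]
    congr 2
    ring
  have h3 := hasSum_sum h1
  have e2 : (fun h : ℤ => ∑ n ∈ Finset.range M, cf α h * ee ((h + α) * (((Y : ℝ) + n) ^ k + ((Y : ℝ) + n) ^ g))) =
      fun h : ℤ => cf α h * SP k g Y M (h + α) := by
    funext h
    unfold SP
    rw [Finset.mul_sum]
  rw [e2] at h3
  exact h3

lemma GP_triv (k : ℕ) (g : ℝ) (Y M : ℕ) (α : ℝ) : ‖GP k g Y M α‖ ≤ M := by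
  unfold GP
  refine (norm_sum_le _ _).trans ?_
  calc ∑ n ∈ Finset.range M, ‖((ww (((Y : ℝ) + n) ^ k + ((Y : ℝ) + n) ^ g) : ℝ) : ℂ) *
        ee (α * (⌊((Y : ℝ) + n) ^ k + ((Y : ℝ) + n) ^ g⌋₊ : ℝ))‖
      ≤ ∑ _n ∈ Finset.range M, (1 : ℝ) := by
        refine Finset.sum_le_sum fun n _ => ?_
        rw [norm_mul, ee_norm', mul_one, Complex.norm_real, Real.norm_of_nonneg (ww_nonneg _)]
        exact ww_le _
    _ = M := by simp

theorem GP_bound (k : ℕ) (hk : 2 ≤ k) {η : ℝ} (hη : 0 < η) (hη1 : η ≤ 1 / 8) :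
    ∃ σ : ℝ, 0 < σ ∧ σ ≤ 1 ∧ ∀ g : ℝ, k - 1 / 2 < g → g < k → ∃ C : ℝ, 1 ≤ C ∧ ∃ X0 : ℝ, 4 ≤ X0 ∧ ∀ X : ℝ, X0 ≤ X →
      ∀ α : ℝ, |α| ≤ 1 / 2 → X ^ (2 * η) ≤ |α| * X ^ (k : ℝ) → ∀ Y M : ℕ, 4 * X ≤ Y →
      (Y : ℝ) + M ≤ 64 * X + 1 → ‖GP k g Y M α‖ ≤ C * X ^ (1 - σ) := by
  have hk' : (2 : ℝ) ≤ k := by exact_mod_cast hk
  obtain ⟨σ, hσ, hσ1, H⟩ := ESP k hk hη hη1
  refine ⟨σ, hσ, hσ1, fun g hg1 hg2 => ?_⟩
  obtain ⟨C, hC, X0, hX0, H⟩ := H g hg1 hg2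
  have hS := sum_dec
  set S : ℝ := ∑' n : ℤ, 8 / (1 + |(n : ℝ)|) ^ 2 with hSd
  have hS0 : 0 ≤ S := tsum_nonneg fun n => by positivity
  refine ⟨1 + S * (C + 130), ?_, max X0 4, le_max_right _ _, ?_⟩
  · have : 0 ≤ S * (C + 130) := mul_nonneg hS0 (by linarith)
    linarith
  intro X hX α hα hα2 Y M hY hM
  have hX4 : 4 ≤ X := (le_max_right _ _).trans hX
  have hXp : 0 < X := by linarith
  set P : ℝ := X ^ (1 - σ) with hP
  have hP1 : 1 ≤ P := Real.one_le_rpow (by linarith) (by linarith)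
  have hM65 : (M : ℝ) ≤ 65 * X := by
    have : (0 : ℝ) ≤ Y := by positivity
    linarith
  -- each term
  have hterm : ∀ h : ℤ, ‖cf α h * SP k g Y M (h + α)‖ ≤ 8 / (1 + |(h : ℝ)|) ^ 2 * ((C + 130) * P) := by
    intro h
    have hh0 := abs_nonneg (h : ℝ)
    have hSE : ‖SP k g Y M (h + α)‖ ≤ (1 + |(h : ℝ)|) * ((C + 130) * P) := by
      rcases le_or_gt |(h : ℝ) + α| X with hle | hgt
      · have g1 : ‖SP k g Y M (h + α)‖ ≤ C * P := by
          refine H X ((le_max_left _ _).trans hX) (h + α) ?_ ?_ Y M hY hM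
          · by_cases hh : h = 0
            · subst hh
              simpa using hα2
            · have h1 : (1 : ℝ) ≤ |(h : ℝ)| := by
                have : (1 : ℤ) ≤ |h| := Int.one_le_abs hh
                exact_mod_cast this
              have h2 : 1 / 2 ≤ |(h : ℝ) + α| := by
                have := abs_sub_abs_le_abs_sub (h : ℝ) (-α)
                rw [abs_neg, sub_neg_eq_add] at this
                linarith
              have h3 : X ^ (2 * η) ≤ X ^ (1 / 2 : ℝ) := Real.rpow_le_rpow_of_exponent_le (by linarith) (by linarith)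
              have h4 : X ^ (1 / 2 : ℝ) * X ^ (1 / 2 : ℝ) ≤ X ^ (k : ℝ) := by
                rw [← Real.rpow_add hXp]
                exact Real.rpow_le_rpow_of_exponent_le (by linarith) (by linarith)
              have h5 : (2 : ℝ) ≤ X ^ (1 / 2 : ℝ) := by
                have : (2 : ℝ) = (4 : ℝ) ^ (1 / 2 : ℝ) := by
                  rw [show (4 : ℝ) = 2 ^ (2 : ℝ) by norm_num, ← Real.rpow_mul (by norm_num)]
                  norm_num
                exact this.le.trans (Real.rpow_le_rpow (by norm_num) hX4 (by norm_num))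
              have h6 : 0 < X ^ (1 / 2 : ℝ) := by linarith
              calc X ^ (2 * η) ≤ X ^ (1 / 2 : ℝ) := h3
                _ ≤ 1 / 2 * (X ^ (1 / 2 : ℝ) * X ^ (1 / 2 : ℝ)) := by nlinarith
                _ ≤ 1 / 2 * X ^ (k : ℝ) := by linarith
                _ ≤ |(h : ℝ) + α| * X ^ (k : ℝ) := mul_le_mul_of_nonneg_right h2 (Real.rpow_nonneg hXp.le _)
          · calc |(h : ℝ) + α| * X ^ (k : ℝ) ≤ X * X ^ (k : ℝ) := mul_le_mul_of_nonneg_right hle (Real.rpow_nonneg hXp.le _)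
              _ = X ^ ((k : ℝ) + 1) := by rw [Real.rpow_add_one hXp.ne']; ring
              _ ≤ X ^ ((k : ℝ) + 2) := by
                apply Real.rpow_le_rpow_of_exponent_le (by linarith)
                linarith
        calc ‖SP k g Y M (h + α)‖ ≤ C * P := g1
          _ ≤ 1 * ((C + 130) * P) := by nlinarith
          _ ≤ _ := by
            apply mul_le_mul_of_nonneg_right _ (by nlinarith)
            linarith
      · have h1 : X / 2 ≤ |(h : ℝ)| := by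
          have := abs_add_le (h : ℝ) α
          linarith
        calc ‖SP k g Y M (h + α)‖ ≤ M := SP_triv _ _ _ _ _
          _ ≤ 65 * X := hM65
          _ ≤ (1 + |(h : ℝ)|) * 130 := by linarith
          _ ≤ _ := by
            apply mul_le_mul_of_nonneg_left _ (by linarith)
            nlinarith
    rw [norm_mul]
    calc ‖cf α h‖ * ‖SP k g Y M (h + α)‖ ≤ 8 / (1 + |(h : ℝ)|) ^ 3 * ((1 + |(h : ℝ)|) * ((C + 130) * P)) :=
          mul_le_mul (cf_bound hα h) hSE (norm_nonneg _) (by positivity)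
      _ = _ := by
        field_simp
  have hG := GP_hasSum k g Y M hα
  have hsum : Summable fun h : ℤ => 8 / (1 + |(h : ℝ)|) ^ 2 * ((C + 130) * P) := hS.mul_right _
  calc ‖GP k g Y M α‖ = ‖∑' h : ℤ, cf α h * SP k g Y M (h + α)‖ := by rw [hG.tsum_eq]
    _ ≤ ∑' h : ℤ, 8 / (1 + |(h : ℝ)|) ^ 2 * ((C + 130) * P) := tsum_of_norm_bounded hsum.hasSum hterm
    _ = S * ((C + 130) * P) := by rw [tsum_mul_right]
    _ ≤ (1 + S * (C + 130)) * P := by nlinarith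

/-- the sum of the weights in an interval -/
theorem WP_bound (k : ℕ) (hk : 2 ≤ k) :
    ∃ σ : ℝ, 0 < σ ∧ σ ≤ 1 ∧ ∀ g : ℝ, k - 1 / 2 < g → g < k → ∃ C : ℝ, 1 ≤ C ∧ ∃ X0 : ℝ, 4 ≤ X0 ∧ ∀ X : ℝ, X0 ≤ X →
      ∀ Y M : ℕ, 4 * X ≤ Y → (Y : ℝ) + M ≤ 64 * X + 1 →
      (M : ℝ) / 2 - C * X ^ (1 - σ) ≤ ∑ n ∈ Finset.range M, ww (((Y : ℝ) + n) ^ k + ((Y : ℝ) + n) ^ g) := by
  have hk' : (2 : ℝ) ≤ k := by exact_mod_cast hk
  obtain ⟨σ, hσ, hσ1, H⟩ := ESP k hk (η := 1 / 8) (by norm_num) le_rfl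
  refine ⟨σ, hσ, hσ1, fun g hg1 hg2 => ?_⟩
  obtain ⟨C, hC, X0, hX0, H⟩ := H g hg1 hg2
  refine ⟨C, hC, max X0 4, le_max_right _ _, ?_⟩
  intro X hX Y M hY hM
  have hX4 : 4 ≤ X := (le_max_right _ _).trans hX
  have hXp : 0 < X := by linarith
  have hS : ∀ s : ℝ, |s| = 1 → ‖SP k g Y M s‖ ≤ C * X ^ (1 - σ) := by
    intro s hs
    refine H X ((le_max_left _ _).trans hX) s ?_ ?_ Y M hY hM
    · rw [hs, one_mul]
      exact Real.rpow_le_rpow_of_exponent_le (by linarith) (by linarith)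
    · rw [hs, one_mul]
      exact Real.rpow_le_rpow_of_exponent_le (by linarith) (by linarith)
  have e1 : ((∑ n ∈ Finset.range M, ww (((Y : ℝ) + n) ^ k + ((Y : ℝ) + n) ^ g) : ℝ) : ℂ) =
      (2 * M - SP k g Y M 1 - SP k g Y M (-1)) / 4 := by
    rw [Complex.ofReal_sum]
    simp_rw [ww_ee]
    rw [← Finset.sum_div, Finset.sum_sub_distrib, Finset.sum_sub_distrib]
    unfold SP
    simp only [one_mul, neg_mul, Finset.sum_const, Finset.card_range, nsmul_eq_mul]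
    congr 3
    ring
  have e2 : (∑ n ∈ Finset.range M, ww (((Y : ℝ) + n) ^ k + ((Y : ℝ) + n) ^ g)) =
      (2 * (M : ℝ) - (SP k g Y M 1).re - (SP k g Y M (-1)).re) / 4 := by
    have := congrArg Complex.re e1
    rw [Complex.ofReal_re] at this
    rw [this]
    have h4 : ((2 * (M : ℂ) - SP k g Y M 1 - SP k g Y M (-1)) / 4) =
        (((1 / 4 : ℝ)) : ℂ) * (2 * (M : ℂ) - SP k g Y M 1 - SP k g Y M (-1)) := by
      push_cast
      ring
    rw [h4, Complex.re_ofReal_mul]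
    simp
    ring
  rw [e2]
  have h1 := (Complex.re_le_norm (SP k g Y M 1)).trans (hS 1 (by norm_num))
  have h2 := (Complex.re_le_norm (SP k g Y M (-1))).trans (hS (-1) (by norm_num))
  have h3 : 0 ≤ C * X ^ (1 - σ) := by
    have := Real.rpow_nonneg hXp.le (1 - σ)
    positivity
  linarith

end Pool.Agent.J4H7.WP
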