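import Pool.Agent.J4H7.WP.D
import Pool.Agent.J4H7.WP.B
import Pool.Agent.J4H7.WE.D3

set_option autoImplicit false

/-!
# Waring's problem with perturbed powers `n ^ k + ⌊n ^ γ⌋`, part E (helper7)

The main term, and the representations.
-/

namespace Pool.Agent.J4H7.WP

open Real Set Filter Topology
open Pool.Agent.J4H7.WE
open Pool.Agent.Helper153.Vdc (ee)

/-- `⌊z ^ k + z ^ γ⌋` -/
noncomputable def fp (k : ℕ) (g : ℝ) (z : ℕ) : ℕ := ⌊(z : ℝ) ^ k + (z : ℝ) ^ g⌋₊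

lemma fp_eq (k : ℕ) (g : ℝ) (z : ℕ) : fp k g z = z ^ k + ⌊(z : ℝ) ^ g⌋₊ := by
  unfold fp
  have h : (z : ℝ) ^ k + (z : ℝ) ^ g = (z : ℝ) ^ g + ((z ^ k : ℕ) : ℝ) := by
    push_cast
    ring
  rw [h, Nat.floor_add_natCast (Real.rpow_nonneg (by positivity) _)]
  ring

lemma fp_err (k : ℕ) (g : ℝ) (z : ℕ) : (fp k g z : ℝ) ≤ (z : ℝ) ^ k + (z : ℝ) ^ g ∧ (z : ℝ) ^ k + (z : ℝ) ^ g ≤ fp k g z + 1 :=
  ⟨Nat.floor_le (add_nonneg (by positivity) (Real.rpow_nonneg (by positivity) _)), (Nat.lt_floor_add_one _).le⟩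

open scoped Classical in
/-- **the main term** -/
theorem count_lowerP (k : ℕ) (hk : 2 ≤ k) :
    ∃ ρ : ℝ, 0 < ρ ∧ ρ ≤ 1 / 4 ∧ ∀ g : ℝ, k - 1 / 2 < g → g < k → ∃ c : ℝ, 0 < c ∧ ∃ X0 : ℝ, 4 ≤ X0 ∧ ∀ X : ℝ, X0 ≤ X →
      ∀ W T : ℕ, X ^ ((k : ℝ) - ρ) ≤ W → 2 * (4 * X) ^ k ≤ (T : ℝ) - W + 1 → (T : ℝ) ≤ (32 * X) ^ k →
      c * X ^ (1 - ρ) ≤ ∑ z ∈ BB X, if (T < fp k g z + W ∧ fp k g z ≤ T) then ww ((z : ℝ) ^ k + (z : ℝ) ^ g) else 0 := by
  have hk' : (2 : ℝ) ≤ k := by exact_mod_cast hk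
  obtain ⟨σ, hσ, hσ1, H⟩ := WP_bound k hk
  set ρ : ℝ := σ / 4 with hρ
  have hρ0 : 0 < ρ := by positivity
  refine ⟨ρ, hρ0, by linarith, fun g hg1 hg2 => ?_⟩
  obtain ⟨C, hC, X1, hX1, HW⟩ := H g hg1 hg2
  clear H
  have hg1' : 1 ≤ g := by linarith
  set θ : ℝ := (k : ℝ) with hθd
  set c0 : ℝ := 1 / (4 * θ * 32 ^ (θ - 1)) with hc0
  have hc00 : 0 < c0 := by positivity
  have ev1 : ∀ᶠ X : ℝ in atTop, (2 : ℝ) ≤ X ^ (θ - ρ) := (tendsto_rpow_atTop (by linarith)).eventually_ge_atTop _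
  have ev2 : ∀ᶠ X : ℝ in atTop, 4 / c0 ≤ X ^ (1 - ρ) := (tendsto_rpow_atTop (by linarith)).eventually_ge_atTop _
  have ev3 : ∀ᶠ X : ℝ in atTop, 8 * C / c0 ≤ X ^ (σ - ρ) := (tendsto_rpow_atTop (by linarith)).eventually_ge_atTop _
  obtain ⟨X2, hX2⟩ := eventually_atTop.1 (ev1.and (ev2.and ev3))
  refine ⟨c0 / 4, by positivity, max X1 X2, hX1.trans (le_max_left _ _), ?_⟩
  intro X hX W T hW hT1 hT2
  obtain ⟨g1, g2, g3⟩ := hX2 X ((le_max_right _ _).trans hX)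
  have hX4 : 4 ≤ X := hX1.trans ((le_max_left _ _).trans hX)
  have hX0 : 0 < X := by linarith
  have hθ0 : 0 < θ := by linarith
  set t : ℝ := (T : ℝ) - W + 1 with ht
  have h4X : 0 < (4 * X) ^ k := by positivity
  have ht0 : 0 < t := by linarith
  have hW2 : (2 : ℝ) ≤ W := g1.trans hW
  have hT0 : (0 : ℝ) < T := by linarith
  have htT : t < T := by linarith
  -- the function
  set f : ℝ → ℝ := fun z => z ^ k + z ^ g with hf
  have hfc : ContinuousOn f (Icc (4 * X) (32 * X)) := by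
    intro z hz
    have hz0 : z ≠ 0 := by
      have : 0 < z := by linarith [hz.1]
      exact this.ne'
    exact ((continuousAt_id.pow k).add (Real.continuousAt_rpow_const z g (Or.inl hz0))).continuousWithinAt
  have hmono : ∀ a b : ℝ, 0 < a → a ≤ b → f a ≤ f b := by
    intro a b ha hab
    exact add_le_add (pow_le_pow_left₀ ha.le hab k) (Real.rpow_le_rpow ha.le hab (by linarith))
  have hfl : f (4 * X) ≤ t := by
    refine le_trans ?_ hT1
    have h1 : (4 * X) ^ g ≤ (4 * X) ^ k := by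
      rw [← Real.rpow_natCast]
      exact Real.rpow_le_rpow_of_exponent_le (by linarith) hg2.le
    simp only [hf]
    linarith
  have hfu : (T : ℝ) ≤ f (32 * X) := by
    refine hT2.trans ?_
    have h1 : 0 ≤ (32 * X) ^ g := Real.rpow_nonneg (by linarith) _
    simp only [hf]
    linarith
  have hivt := intermediate_value_Icc (show 4 * X ≤ 32 * X by linarith) hfc
  obtain ⟨u, hu, hut⟩ := hivt (show t ∈ Icc (f (4 * X)) (f (32 * X)) from ⟨hfl, htT.le.trans hfu⟩)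
  obtain ⟨v, hv, hvT⟩ := hivt (show (T : ℝ) ∈ Icc (f (4 * X)) (f (32 * X)) from ⟨hfl.trans htT.le, hfu⟩)
  have hu4 : 4 * X ≤ u := hu.1
  have hv32 : v ≤ 32 * X := hv.2
  have hu0 : 0 < u := by linarith
  have hv0 : 0 < v := by linarith [hv.1]
  have huv : u ≤ v := by
    by_contra hne
    push Not at hne
    have := hmono v u hv0 hne.le
    rw [hut, hvT] at this
    linarith
  -- the length
  have hlen : c0 * X ^ (1 - ρ) ≤ v - u := by
    have h1 := bern (θ := θ) (by linarith) hu0 huv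
    have h1' := bern (θ := g) hg1' hu0 huv
    rw [hθd, Real.rpow_natCast, Real.rpow_natCast, ← hθd] at h1
    have hv1 : 1 ≤ v := by linarith [hv.1]
    have h2 : v ^ (θ - 1) ≤ (32 * X) ^ (θ - 1) := Real.rpow_le_rpow hv0.le hv32 (by linarith)
    have h2' : v ^ (g - 1) ≤ v ^ (θ - 1) := Real.rpow_le_rpow_of_exponent_le hv1 (by linarith)
    have h2'' : 0 ≤ v ^ (g - 1) := Real.rpow_nonneg hv0.le _
    have h3 : (T : ℝ) - t ≤ 2 * (θ * (32 * X) ^ (θ - 1)) * (v - u) := by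
      have e1 : (T : ℝ) - t = (v ^ k - u ^ k) + (v ^ g - u ^ g) := by
        rw [← hut, ← hvT]
        simp only [hf]
        ring
      rw [e1]
      have a1 : v ^ k - u ^ k ≤ θ * (32 * X) ^ (θ - 1) * (v - u) := by
        refine h1.trans ?_
        apply mul_le_mul_of_nonneg_right _ (by linarith)
        exact mul_le_mul_of_nonneg_left h2 hθ0.le
      have a2 : v ^ g - u ^ g ≤ θ * (32 * X) ^ (θ - 1) * (v - u) := by
        refine h1'.trans ?_
        apply mul_le_mul_of_nonneg_right _ (by linarith)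
        exact mul_le_mul hg2.le (h2'.trans h2) h2'' hθ0.le
      linarith
    have h4 : X ^ (θ - ρ) / 2 ≤ (T : ℝ) - t := by
      rw [ht]
      linarith
    have h5 : (32 * X) ^ (θ - 1) = 32 ^ (θ - 1) * X ^ (θ - 1) := Real.mul_rpow (by norm_num) hX0.le
    have h6 : X ^ (1 - ρ) = X ^ (θ - ρ) / X ^ (θ - 1) := by
      rw [← Real.rpow_sub hX0]
      congr 1
      ring
    have h7 : 0 < X ^ (θ - 1) := Real.rpow_pos_of_pos hX0 _
    have h8 : (0 : ℝ) < 32 ^ (θ - 1) := Real.rpow_pos_of_pos (by norm_num) _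
    rw [h5] at h3
    rw [h6, hc0]
    have e1 : 1 / (4 * θ * 32 ^ (θ - 1)) * (X ^ (θ - ρ) / X ^ (θ - 1)) =
        (X ^ (θ - ρ) / 2) / (2 * (θ * (32 ^ (θ - 1) * X ^ (θ - 1)))) := by
      field_simp
      norm_num
    rw [e1, div_le_iff₀ (by positivity)]
    linarith
  set Y := ⌈u⌉₊ with hY
  set M := ⌊v⌋₊ + 1 - Y with hM
  have hYu : u ≤ Y := Nat.le_ceil _
  have hYu' : (Y : ℝ) < u + 1 := Nat.ceil_lt_add_one hu0.le
  have hvf : (⌊v⌋₊ : ℝ) ≤ v := Nat.floor_le hv0.le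
  have hvf' : v < (⌊v⌋₊ : ℝ) + 1 := Nat.lt_floor_add_one v
  have hlen4 : 4 ≤ c0 * X ^ (1 - ρ) := by
    rw [div_le_iff₀ hc00] at g2
    linarith
  have hYv : Y ≤ ⌊v⌋₊ + 1 := by
    have : (Y : ℝ) < ((⌊v⌋₊ + 1 + 1 : ℕ) : ℝ) := by
      push_cast
      linarith
    have : Y < ⌊v⌋₊ + 1 + 1 := by exact_mod_cast this
    omega
  have hMr : (M : ℝ) = (⌊v⌋₊ : ℝ) + 1 - Y := by
    rw [hM, Nat.cast_sub hYv]
    push_cast
    ring
  have key := HW X ((le_max_left _ _).trans hX) Y M (hu4.trans hYu) (by rw [hMr]; linarith)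
  have hM1 : v - u - 1 ≤ M := by
    rw [hMr]
    linarith
  -- the sum over the subinterval
  have e2 : ∑ n ∈ Finset.range M, ww (((Y : ℝ) + n) ^ k + ((Y : ℝ) + n) ^ g) =
      ∑ z ∈ Finset.Ico Y (⌊v⌋₊ + 1), ww ((z : ℝ) ^ k + (z : ℝ) ^ g) := by
    rw [Finset.sum_Ico_eq_sum_range]
    refine Finset.sum_congr rfl fun n _ => ?_
    push_cast
    rfl
  have e3 : ∑ z ∈ Finset.Ico Y (⌊v⌋₊ + 1), ww ((z : ℝ) ^ k + (z : ℝ) ^ g) ≤
      ∑ z ∈ BB X, if (T < fp k g z + W ∧ fp k g z ≤ T) then ww ((z : ℝ) ^ k + (z : ℝ) ^ g) else 0 := by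
    rw [← Finset.sum_filter]
    apply Finset.sum_le_sum_of_subset_of_nonneg
    · intro z hz
      rw [Finset.mem_Ico] at hz
      have hz1 : u ≤ z := hYu.trans (by exact_mod_cast hz.1)
      have hz2 : (z : ℝ) ≤ v := by
        have : z ≤ ⌊v⌋₊ := by omega
        exact (Nat.cast_le.2 this).trans hvf
      have hz0 : (0 : ℝ) < z := by linarith
      rw [Finset.mem_filter]
      refine ⟨?_, ?_, ?_⟩
      · unfold BB
        rw [Finset.mem_Ico]
        constructor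
        · rw [Nat.ceil_le]
          linarith
        · have : z ≤ ⌊64 * X⌋₊ := by
            rw [Nat.le_floor_iff (by linarith)]
            linarith
          omega
      · have h1 : t ≤ (z : ℝ) ^ k + (z : ℝ) ^ g := by
          rw [← hut]
          exact hmono u z hu0 hz1
        have h2 : (z : ℝ) ^ k + (z : ℝ) ^ g < (fp k g z : ℝ) + 1 := Nat.lt_floor_add_one _
        have h3 : (T : ℝ) < ((fp k g z + W : ℕ) : ℝ) := by
          push_cast
          rw [ht] at h1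
          linarith
        exact_mod_cast h3
      · have h1 : (z : ℝ) ^ k + (z : ℝ) ^ g ≤ T := by
          rw [← hvT]
          exact hmono z v hz0 hz2
        unfold fp
        have := Nat.floor_le_floor h1
        rwa [Nat.floor_natCast] at this
    · intro z _ _
      exact ww_nonneg _
  rw [e2] at key
  have hXσ : C * X ^ (1 - σ) ≤ c0 / 8 * X ^ (1 - ρ) := by
    have h1 : X ^ (1 - ρ) = X ^ (1 - σ) * X ^ (σ - ρ) := by
      rw [← Real.rpow_add hX0]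
      congr 1
      ring
    have h2 : 0 < X ^ (1 - σ) := Real.rpow_pos_of_pos hX0 _
    rw [div_le_iff₀ hc00] at g3
    rw [h1]
    nlinarith
  linarith

/-- the sum of the first `m` terms -/
noncomputable def fsP (k : ℕ) (g : ℝ) {m : ℕ} (x : Fin m → ℕ) : ℕ := ∑ i, fp k g (x i)

/-- coincidences are near-coincidences -/
lemma JJ_leP {q X g : ℝ} {k m : ℕ} : JJ (AA q X m) (fsP k g) ≤ TP q X k m m g := by
  classical
  unfold JJ TP
  refine Finset.card_le_card_of_injOn (fun p i => (p.1 i, p.2 i)) ?_ ?_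
  · intro p hp
    rw [Finset.mem_coe, Finset.mem_filter, Finset.mem_product] at hp
    obtain ⟨⟨h1, h2⟩, h3⟩ := hp
    rw [Finset.mem_coe, Finset.mem_filter]
    refine ⟨?_, ?_⟩
    · rw [mem_PPs]
      intro i
      exact ⟨Fintype.mem_piFinset.1 h1 i, Fintype.mem_piFinset.1 h2 i⟩
    · unfold FP
      simp only
      have e1 : ∑ i, ((((p.1 i : ℕ) : ℝ) ^ k - ((p.2 i : ℕ) : ℝ) ^ k) + (((p.1 i : ℕ) : ℝ) ^ g - ((p.2 i : ℕ) : ℝ) ^ g)) =
          ∑ i, (((((p.1 i : ℕ) : ℝ) ^ k + ((p.1 i : ℕ) : ℝ) ^ g) - fp k g (p.1 i)) -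
            ((((p.2 i : ℕ) : ℝ) ^ k + ((p.2 i : ℕ) : ℝ) ^ g) - fp k g (p.2 i))) := by
        have h4 : ((fsP k g p.1 : ℕ) : ℝ) = fsP k g p.2 := by rw [h3]
        unfold fsP at h4
        push_cast at h4
        have h5 : ∀ i : Fin m, (((p.1 i : ℕ) : ℝ) ^ k - ((p.2 i : ℕ) : ℝ) ^ k) + (((p.1 i : ℕ) : ℝ) ^ g - ((p.2 i : ℕ) : ℝ) ^ g) =
            (((((p.1 i : ℕ) : ℝ) ^ k + ((p.1 i : ℕ) : ℝ) ^ g) - fp k g (p.1 i)) -
            ((((p.2 i : ℕ) : ℝ) ^ k + ((p.2 i : ℕ) : ℝ) ^ g) - fp k g (p.2 i))) + ((fp k g (p.1 i) : ℝ) - fp k g (p.2 i)) := by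
          intro i
          ring
        simp_rw [h5]
        rw [Finset.sum_add_distrib, Finset.sum_sub_distrib (f := fun i => (fp k g (p.1 i) : ℝ)), h4, sub_self, add_zero]
      rw [e1]
      refine (Finset.abs_sum_le_sum_abs _ _).trans ?_
      calc _ ≤ ∑ _i : Fin m, (1 : ℝ) := by
            refine Finset.sum_le_sum fun i _ => ?_
            obtain ⟨a1, a2⟩ := fp_err k g (p.1 i)
            obtain ⟨b1, b2⟩ := fp_err k g (p.2 i)
            rw [abs_le]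
            constructor <;> linarith
        _ = m := by simp
  · intro p _ p' _ h
    have h1 : ∀ i, (p.1 i, p.2 i) = (p'.1 i, p'.2 i) := fun i => congrFun h i
    apply Prod.ext
    · funext i
      exact congrArg Prod.fst (h1 i)
    · funext i
      exact congrArg Prod.snd (h1 i)

/-- the size of the first sum -/
lemma fsP_le {q X g : ℝ} {k m : ℕ} (hq : 0 < q) (hq1 : q < 1) (hX : 1 ≤ X) (hg2 : g ≤ k)
    {x : Fin m → ℕ} (hx : x ∈ AA q X m) :
    (fsP k g x : ℝ) ≤ 2 * ((2 * X) ^ k + m * (2 * X ^ q) ^ k) := by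
  unfold fsP
  push_cast
  have h0 : (0 : ℝ) ≤ (2 * X) ^ k := by positivity
  have h0' : (0 : ℝ) ≤ (2 * X ^ q) ^ k := by positivity
  have h1 : ∀ i : Fin m, (fp k g (x i) : ℝ) ≤ (if (i : ℕ) = 0 then 2 * (2 * X) ^ k else 0) + 2 * (2 * X ^ q) ^ k := by
    intro i
    have h2 := (mem_SS hX).1 (Fintype.mem_piFinset.1 hx i)
    have hl1 : 1 ≤ lev q X i := one_le_lev hq.le hX _
    have hz1 : (1 : ℝ) ≤ x i := hl1.trans h2.1
    have h3 : ((x i : ℕ) : ℝ) ^ k ≤ (2 * lev q X i) ^ k := pow_le_pow_left₀ (by positivity) h2.2 k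
    have h3' : ((x i : ℕ) : ℝ) ^ g ≤ ((x i : ℕ) : ℝ) ^ k := by
      rw [← Real.rpow_natCast]
      exact Real.rpow_le_rpow_of_exponent_le hz1 hg2
    refine (fp_err k g (x i)).1.trans ?_
    by_cases hi : (i : ℕ) = 0
    · rw [if_pos hi]
      have : lev q X (i : ℕ) = X := by rw [hi]; unfold lev; simp
      rw [this] at h3
      linarith
    · rw [if_neg hi, zero_add]
      have h6 : (2 * lev q X i) ^ k ≤ (2 * X ^ q) ^ k := by
        apply pow_le_pow_left₀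
        · have := lev_pos (q := q) hX (i : ℕ)
          linarith
        · have h4 : lev q X i ≤ lev q X 1 := lev_anti hq hq1 hX (by omega)
          have h5 : lev q X 1 = X ^ q := by unfold lev; simp
          linarith
      linarith
  refine (Finset.sum_le_sum fun i _ => h1 i).trans ?_
  rw [Finset.sum_add_distrib]
  have h2 : ∑ i : Fin m, (if (i : ℕ) = 0 then 2 * (2 * X) ^ k else (0 : ℝ)) ≤ 2 * (2 * X) ^ k := by
    cases m with
    | zero => simpa using h0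
    | succ m =>
      rw [Fin.sum_univ_succ]
      simp
  have h3 : ∑ _i : Fin m, 2 * (2 * X ^ q) ^ k = m * (2 * (2 * X ^ q) ^ k) := by simp
  rw [h3]
  linarith

lemma GGsP_eq (k : ℕ) (g X α : ℝ) : GGs (BB X) (fp k g) (fun z : ℕ => ww ((z : ℝ) ^ k + (z : ℝ) ^ g)) α =
    GP k g ⌈4 * X⌉₊ (⌊64 * X⌋₊ + 1 - ⌈4 * X⌉₊) α := by
  unfold GGs GP BB
  rw [Finset.sum_Ico_eq_sum_range]
  refine Finset.sum_congr rfl fun n _ => ?_
  unfold fp
  push_cast
  rfl

end Pool.Agent.J4H7.WP
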