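import Pool.Agent.J4H7.WP.E

set_option autoImplicit false

/-!
# Waring's problem with perturbed powers `n ^ k + ⌊n ^ γ⌋`, part F (helper7)

The representations.
-/

namespace Pool.Agent.J4H7.WP

open Real Set Filter Topology
open Pool.Agent.J4H7.WE
open Pool.Agent.Helper153.Vdc (ee)

/-- a block of integers -/
theorem repr_blockP (k : ℕ) (hk : 2 ≤ k) : ∃ δ : ℝ, 0 < δ ∧ δ ≤ 1 / 2 ∧ ∀ (q : ℝ) (m : ℕ) (g : ℝ), 0 < q → q < 1 →
    k - δ < g → g < k →
    (∀ ε : ℝ, 0 < ε → ∀ᶠ j : ℕ in atTop, (TP q ((2 : ℝ) ^ j) k m m g : ℝ) ≤ VV q ((2 : ℝ) ^ j) m * ((2 : ℝ) ^ j) ^ (-g + ε)) →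
    ∀ᶠ j : ℕ in atTop, ∀ N : ℕ, (16 * (2 : ℝ) ^ j) ^ k ≤ N → (N : ℝ) ≤ (32 * (2 : ℝ) ^ j) ^ k →
      ∃ (x y : Fin m → ℕ) (z : ℕ), (∀ i, 1 ≤ x i) ∧ (∀ i, 1 ≤ y i) ∧ 1 ≤ z ∧ fsP k g x + fsP k g y + fp k g z = N := by
  classical
  have hk' : (2 : ℝ) ≤ k := by exact_mod_cast hk
  obtain ⟨ρ, hρ, hρ1, H1'⟩ := count_lowerP k hk
  obtain ⟨σ, hσ, hσ1, H2'⟩ := GP_bound k hk (η := ρ / 4) (by positivity) (by linarith)
  set τ : ℝ := min (ρ / 2) σ with hτ
  have hτ0 : 0 < τ := lt_min (by positivity) hσ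
  refine ⟨min (1 / 2) (τ / 4), lt_min (by norm_num) (by positivity), min_le_left _ _, ?_⟩
  intro q m g hq hq1 hg1 hg2 hMV
  have hgh : k - 1 / 2 < g := by linarith [min_le_left (1 / 2) (τ / 4)]
  have hgτ : k - τ / 4 < g := by linarith [min_le_right (1 / 2) (τ / 4)]
  obtain ⟨c', hc', X1, hX1, H1⟩ := H1' g hgh hg2
  obtain ⟨C, hC, X2, hX2, H2⟩ := H2' g hgh hg2
  have hj : Tendsto (fun j : ℕ => (2 : ℝ) ^ j) atTop atTop := tendsto_pow_atTop_atTop_of_one_lt (by norm_num)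
  have ev1 : ∀ᶠ X : ℝ in atTop, (m + 1 : ℝ) ≤ (X ^ (1 - q)) ^ (k : ℝ) :=
    ((tendsto_rpow_atTop (by linarith : (0 : ℝ) < k)).comp (tendsto_rpow_atTop (by linarith : 0 < 1 - q))).eventually_ge_atTop _
  have ev2 : ∀ᶠ X : ℝ in atTop, (2 * (60000 + 2 * C) * 16 ^ m / c' + 1) ≤ X ^ (τ / 2) :=
    (tendsto_rpow_atTop (by positivity)).eventually_ge_atTop _
  have evX := hj.eventually ((eventually_ge_atTop (max (max X1 X2) 4)).and (ev1.and ev2))
  filter_upwards [evX, hMV (τ / 4) (by positivity)] with j hjX hMVj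
  set X : ℝ := (2 : ℝ) ^ j with hXdef
  obtain ⟨gX, g1, g2⟩ := hjX
  have gX1 : X1 ≤ X := (le_max_left _ _).trans ((le_max_left _ _).trans gX)
  have gX2 : X2 ≤ X := (le_max_right _ _).trans ((le_max_left _ _).trans gX)
  have gX4 : 4 ≤ X := (le_max_right _ _).trans gX
  have hX1' : (1 : ℝ) ≤ X := by linarith
  have hX0 : 0 < X := by linarith
  intro N hN1 hN2
  -- notation
  set W : ℕ := ⌈X ^ ((k : ℝ) - ρ)⌉₊ with hW
  have hXθρ : 1 ≤ X ^ ((k : ℝ) - ρ) := Real.one_le_rpow hX1' (by linarith)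
  have hWl : X ^ ((k : ℝ) - ρ) ≤ W := Nat.le_ceil _
  have hWu : (W : ℝ) ≤ 2 * X ^ ((k : ℝ) - ρ) := by
    have := Nat.ceil_lt_add_one (show 0 ≤ X ^ ((k : ℝ) - ρ) by linarith)
    rw [← hW] at this
    linarith
  have hW1 : 1 ≤ W := by
    have : (1 : ℝ) ≤ W := hXθρ.trans hWl
    exact_mod_cast this
  have hW0 : (0 : ℝ) < W := by exact_mod_cast hW1
  set A := AA q X m with hA
  set w : ℕ → ℝ := fun z : ℕ => ww ((z : ℝ) ^ k + (z : ℝ) ^ g) with hw
  have hw0 : ∀ p, 0 ≤ w p := fun p => ww_nonneg _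
  have hcard : 0 < (A.card : ℝ) := by
    have h1 : 0 < A.card := by
      rw [hA]
      unfold AA
      rw [Fintype.card_piFinset]
      apply Finset.prod_pos
      intro i _
      have h2 := SS_card_lower hq.le hX1' (i : ℕ)
      have h3 := lev_pos (q := q) hX1' (i : ℕ)
      have : (0 : ℝ) < ((SS q X i).card : ℝ) := by linarith
      exact_mod_cast this
    exact_mod_cast h1
  have hXk : 0 < X ^ (k : ℝ) := Real.rpow_pos_of_pos hX0 _
  -- the bound for the generating functions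
  have hB : ∀ α : ℝ, |α| ≤ 1 / 2 → ‖GGs (BB X) (fp k g) w α‖ * ‖1 - KK W α‖ ≤ (60000 + 2 * C) * X ^ (1 - τ) := by
    intro α hα
    have hXτ : 0 < X ^ (1 - τ) := Real.rpow_pos_of_pos hX0 _
    have hY4 : 4 * X ≤ (⌈4 * X⌉₊ : ℝ) := Nat.le_ceil _
    have hYM := BB_len hX1'
    rw [hw, GGsP_eq]
    rcases le_or_gt (X ^ (2 * (ρ / 4))) (|α| * X ^ (k : ℝ)) with h | h
    · have h1 := H2 X gX2 α hα h _ _ hY4 hYM
      have h2 := KK_le hW1 α
      calc _ ≤ (C * X ^ (1 - σ)) * 2 := mul_le_mul h1 h2 (norm_nonneg _) (by positivity)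
        _ ≤ (C * X ^ (1 - τ)) * 2 := by
            apply mul_le_mul_of_nonneg_right _ (by norm_num)
            apply mul_le_mul_of_nonneg_left _ (by linarith)
            exact Real.rpow_le_rpow_of_exponent_le hX1' (by linarith [min_le_right (ρ / 2) σ])
        _ ≤ _ := by nlinarith
    · have h1 := GP_triv k g ⌈4 * X⌉₊ (⌊64 * X⌋₊ + 1 - ⌈4 * X⌉₊) α
      have h1' : ((⌊64 * X⌋₊ + 1 - ⌈4 * X⌉₊ : ℕ) : ℝ) ≤ 65 * X := by
        have : (0 : ℝ) ≤ (⌈4 * X⌉₊ : ℝ) := by positivity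
        linarith
      have h2 := KK_small hW1 α
      have h3 : |α| ≤ X ^ (2 * (ρ / 4)) / X ^ (k : ℝ) := by
        rw [le_div_iff₀ hXk]
        exact h.le
      have h4 : ‖1 - KK W α‖ ≤ 13 * X ^ (-(ρ / 2)) := by
        calc ‖1 - KK W α‖ ≤ 2 * Real.pi * W * |α| := h2
          _ ≤ 2 * Real.pi * (2 * X ^ ((k : ℝ) - ρ)) * (X ^ (2 * (ρ / 4)) / X ^ (k : ℝ)) := by
            have := Real.pi_pos
            gcongr
          _ = 4 * Real.pi * (X ^ ((k : ℝ) - ρ) * X ^ (2 * (ρ / 4)) / X ^ (k : ℝ)) := by ring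
          _ = 4 * Real.pi * X ^ (-(ρ / 2)) := by
            rw [← Real.rpow_add hX0, ← Real.rpow_sub hX0]
            congr 2
            ring
          _ ≤ 13 * X ^ (-(ρ / 2)) := by
            apply mul_le_mul_of_nonneg_right _ (Real.rpow_nonneg hX0.le _)
            have := Real.pi_lt_d2
            linarith
      calc _ ≤ (65 * X) * (13 * X ^ (-(ρ / 2))) :=
            mul_le_mul (h1.trans h1') h4 (norm_nonneg _) (by positivity)
        _ = 845 * X ^ (1 - ρ / 2) := by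
            rw [show 1 - ρ / 2 = 1 + -(ρ / 2) by ring, Real.rpow_add hX0, Real.rpow_one]
            ring
        _ ≤ 845 * X ^ (1 - τ) := by
            apply mul_le_mul_of_nonneg_left _ (by norm_num)
            exact Real.rpow_le_rpow_of_exponent_le hX1' (by linarith [min_le_left (ρ / 2) σ])
        _ ≤ _ := by nlinarith
  have key := RR_avg A (fsP k g) (BB X) (fp k g) w (W := W) (N : ℤ) hB
  -- powers
  have p1 : (16 : ℝ) ≤ (4 : ℝ) ^ k := by
    have : (4 : ℝ) ^ 2 ≤ (4 : ℝ) ^ k := pow_le_pow_right₀ (by norm_num) hk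
    linarith
  have p2 : (64 : ℝ) ≤ (8 : ℝ) ^ k := by
    have : (8 : ℝ) ^ 2 ≤ (8 : ℝ) ^ k := pow_le_pow_right₀ (by norm_num) hk
    linarith
  have hXkn : 0 < X ^ k := by positivity
  have e16 : (16 * X) ^ k = 8 ^ k * (2 * X) ^ k := by
    rw [← mul_pow]
    congr 1
    ring
  have e16' : (16 * X) ^ k = 4 ^ k * (4 * X) ^ k := by
    rw [← mul_pow]
    congr 1
    ring
  have e4 : (4 * X) ^ k = 4 ^ k * X ^ k := mul_pow _ _ _
  have h2X : 0 < (2 * X) ^ k := by positivity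
  have h4X : 0 < (4 * X) ^ k := by positivity
  have hsmall : (m : ℝ) * (2 * X ^ q) ^ k ≤ (2 * X) ^ k := by
    have e1 : (2 * X) ^ k = (2 * X ^ q) ^ k * (X ^ (1 - q)) ^ k := by
      rw [← mul_pow]
      congr 1
      rw [mul_assoc, ← Real.rpow_add hX0]
      rw [show q + (1 - q) = 1 by ring, Real.rpow_one]
    rw [Real.rpow_natCast] at g1
    rw [e1]
    have h5 : 0 ≤ (2 * X ^ q) ^ k := by positivity
    nlinarith
  have hfs : ∀ x ∈ A, (fsP k g x : ℝ) ≤ 4 * (2 * X) ^ k := by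
    intro x hx
    have := fsP_le (k := k) hq hq1 hX1' hg2.le hx
    linarith
  -- the average from below
  have havg : (A.card : ℝ) ^ 2 * (c' * X ^ (1 - ρ)) ≤
      ∑ h ∈ Finset.range W, RR A (fsP k g) (BB X) (fp k g) w ((N : ℤ) - h) := by
    have e1 : ∑ h ∈ Finset.range W, RR A (fsP k g) (BB X) (fp k g) w ((N : ℤ) - h) =
        ∑ a ∈ A, ∑ a' ∈ A, ∑ b ∈ BB X, ∑ h ∈ Finset.range W,
          if ((fsP k g a : ℤ) + fsP k g a' + fp k g b = (N : ℤ) - h) then w b else 0 := by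
      unfold RR
      rw [Finset.sum_comm]
      refine Finset.sum_congr rfl fun a _ => ?_
      rw [Finset.sum_comm]
      refine Finset.sum_congr rfl fun a' _ => ?_
      rw [Finset.sum_comm]
    rw [e1]
    have h2 : ∀ a ∈ A, ∀ a' ∈ A, c' * X ^ (1 - ρ) ≤ ∑ b ∈ BB X, ∑ h ∈ Finset.range W,
        if ((fsP k g a : ℤ) + fsP k g a' + fp k g b = (N : ℤ) - h) then w b else 0 := by
      intro a ha a' ha'
      have f1 := hfs a ha
      have f2 := hfs a' ha'
      have hle : fsP k g a + fsP k g a' ≤ N := by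
        have : ((fsP k g a + fsP k g a' : ℕ) : ℝ) ≤ N := by
          push_cast
          nlinarith
        exact_mod_cast this
      set T : ℕ := N - (fsP k g a + fsP k g a') with hT
      have hTr : (T : ℝ) = N - (fsP k g a + fsP k g a') := by
        rw [hT, Nat.cast_sub hle]
        push_cast
        ring
      have hT1 : 2 * (4 * X) ^ k ≤ (T : ℝ) - W + 1 := by
        have a1 : (W : ℝ) ≤ 2 * X ^ k := by
          have : X ^ ((k : ℝ) - ρ) ≤ X ^ (k : ℝ) := Real.rpow_le_rpow_of_exponent_le hX1' (by linarith)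
          rw [Real.rpow_natCast] at this
          linarith
        have a2 : (N : ℝ) / 2 ≤ T := by
          rw [hTr]
          nlinarith
        have a3 : 16 * (4 * X) ^ k ≤ N := by
          rw [e16'] at hN1
          nlinarith
        have a4 : 16 * X ^ k ≤ (4 * X) ^ k := by
          rw [e4]
          nlinarith
        linarith
      have hT2 : (T : ℝ) ≤ (32 * X) ^ k := by
        have : (0 : ℝ) ≤ (fsP k g a : ℝ) + fsP k g a' := by positivity
        rw [hTr]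
        linarith
      refine (H1 X gX1 W T hWl hT1 hT2).trans ?_
      refine Finset.sum_le_sum fun b _ => ?_
      by_cases hb : T < fp k g b + W ∧ fp k g b ≤ T
      · rw [if_pos hb]
        set h : ℕ := T - fp k g b with hh
        have hmem : h ∈ Finset.range W := by
          rw [Finset.mem_range]
          omega
        have h3 := Finset.single_le_sum (f := fun h : ℕ => if ((fsP k g a : ℤ) + fsP k g a' + fp k g b = (N : ℤ) - h) then w b else 0)
          (fun h _ => by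
            split_ifs
            · exact hw0 _
            · exact le_rfl) hmem
        refine le_trans ?_ h3
        rw [if_pos (by omega)]
      · rw [if_neg hb]
        apply Finset.sum_nonneg
        intro h _
        split_ifs
        · exact hw0 _
        · exact le_rfl
    calc (A.card : ℝ) ^ 2 * (c' * X ^ (1 - ρ)) = ∑ _a ∈ A, ∑ _a' ∈ A, c' * X ^ (1 - ρ) := by
          simp only [Finset.sum_const, nsmul_eq_mul]
          ring
      _ ≤ _ := Finset.sum_le_sum fun a ha => Finset.sum_le_sum fun a' ha' => h2 a ha a' ha'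
  -- the number of coincidences
  have hJ : (JJ A (fsP k g) : ℝ) ≤ 16 ^ m * (A.card : ℝ) ^ 2 * X ^ (-(k : ℝ) + τ / 2) := by
    have h1 : (JJ A (fsP k g) : ℝ) ≤ TP q X k m m g := by exact_mod_cast JJ_leP
    have h2 := VV_le hq.le hX1' m
    have h3 : X ^ (-g + τ / 4) ≤ X ^ (-(k : ℝ) + τ / 2) := Real.rpow_le_rpow_of_exponent_le hX1' (by linarith)
    calc (JJ A (fsP k g) : ℝ) ≤ TP q X k m m g := h1
      _ ≤ VV q X m * X ^ (-g + τ / 4) := hMVj
      _ ≤ VV q X m * X ^ (-(k : ℝ) + τ / 2) := mul_le_mul_of_nonneg_left h3 (VV_pos hX1' m).le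
      _ ≤ _ := mul_le_mul_of_nonneg_right h2 (Real.rpow_nonneg hX0.le _)
  -- positivity
  have hpos : 0 < RR A (fsP k g) (BB X) (fp k g) w (N : ℤ) := by
    have h1 := (abs_le.1 key).1
    have hX1θ : 0 < X ^ (1 - (k : ℝ)) := Real.rpow_pos_of_pos hX0 _
    have h2 : (A.card : ℝ) ^ 2 * (c' / 2 * X ^ (1 - (k : ℝ))) ≤
        1 / (W : ℝ) * ∑ h ∈ Finset.range W, RR A (fsP k g) (BB X) (fp k g) w ((N : ℤ) - h) := by
      have h3 : (A.card : ℝ) ^ 2 * (c' / 2 * X ^ (1 - (k : ℝ))) ≤ 1 / (W : ℝ) * ((A.card : ℝ) ^ 2 * (c' * X ^ (1 - ρ))) := by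
        have h4 : X ^ (1 - ρ) = X ^ (1 - (k : ℝ)) * X ^ ((k : ℝ) - ρ) := by
          rw [← Real.rpow_add hX0]
          congr 1
          ring
        have h5 : (W : ℝ) * X ^ (1 - (k : ℝ)) ≤ 2 * X ^ (1 - ρ) := by
          rw [h4]
          nlinarith
        rw [one_div, ← div_eq_inv_mul, le_div_iff₀ hW0]
        have h6 : 0 ≤ (A.card : ℝ) ^ 2 * (c' / 2) := by positivity
        nlinarith [mul_le_mul_of_nonneg_left h5 h6]
      refine h3.trans ?_
      exact mul_le_mul_of_nonneg_left havg (by positivity)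
    have h7 : (60000 + 2 * C) * X ^ (1 - τ) * JJ A (fsP k g) ≤
        (A.card : ℝ) ^ 2 * X ^ (1 - (k : ℝ)) * ((60000 + 2 * C) * 16 ^ m / X ^ (τ / 2)) := by
      have h8 : X ^ (1 - τ) * X ^ (-(k : ℝ) + τ / 2) = X ^ (1 - (k : ℝ)) / X ^ (τ / 2) := by
        rw [← Real.rpow_add hX0, ← Real.rpow_sub hX0]
        congr 1
        ring
      calc (60000 + 2 * C) * X ^ (1 - τ) * JJ A (fsP k g)
          ≤ (60000 + 2 * C) * X ^ (1 - τ) * (16 ^ m * (A.card : ℝ) ^ 2 * X ^ (-(k : ℝ) + τ / 2)) := by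
            apply mul_le_mul_of_nonneg_left hJ
            have := Real.rpow_nonneg hX0.le (1 - τ)
            have : 0 ≤ 60000 + 2 * C := by linarith
            positivity
        _ = (60000 + 2 * C) * 16 ^ m * (A.card : ℝ) ^ 2 * (X ^ (1 - τ) * X ^ (-(k : ℝ) + τ / 2)) := by ring
        _ = _ := by rw [h8]; ring
    have h9 : (60000 + 2 * C) * 16 ^ m / X ^ (τ / 2) < c' / 2 := by
      have hXτ : 0 < X ^ (τ / 2) := Real.rpow_pos_of_pos hX0 _
      rw [div_lt_iff₀ hXτ]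
      have h10 : 2 * (60000 + 2 * C) * 16 ^ m / c' < X ^ (τ / 2) := by linarith
      rw [div_lt_iff₀ hc'] at h10
      linarith
    have h11 : 0 < (A.card : ℝ) ^ 2 * X ^ (1 - (k : ℝ)) := by positivity
    nlinarith [mul_lt_mul_of_pos_left h9 h11]
  -- extraction
  unfold RR at hpos
  obtain ⟨a, ha, h1⟩ := Finset.exists_ne_zero_of_sum_ne_zero hpos.ne'
  obtain ⟨a', ha', h2⟩ := Finset.exists_ne_zero_of_sum_ne_zero h1
  obtain ⟨b, hb, h3⟩ := Finset.exists_ne_zero_of_sum_ne_zero h2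
  have h4 : (fsP k g a : ℤ) + fsP k g a' + fp k g b = N := by
    by_contra hne
    exact h3 (if_neg hne)
  have hge : ∀ x ∈ A, ∀ i, 1 ≤ x i := by
    intro x hx i
    have h5 := (mem_SS hX1').1 (Fintype.mem_piFinset.1 hx i)
    have h6 := one_le_lev hq.le hX1' (i : ℕ)
    exact_mod_cast h6.trans h5.1
  refine ⟨a, a', b, hge a ha, hge a' ha', ?_, by exact_mod_cast h4⟩
  unfold BB at hb
  rw [Finset.mem_Ico, Nat.ceil_le] at hb
  have : (1 : ℝ) ≤ b := by linarith [hb.1]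
  exact_mod_cast this

/-- **all large integers** -/
theorem repr_allP (k : ℕ) (hk : 2 ≤ k) : ∃ δ : ℝ, 0 < δ ∧ δ ≤ 1 / 2 ∧ ∀ (q : ℝ) (m : ℕ) (g : ℝ), 0 < q → q < 1 →
    k - δ < g → g < k →
    (∀ ε : ℝ, 0 < ε → ∀ᶠ j : ℕ in atTop, (TP q ((2 : ℝ) ^ j) k m m g : ℝ) ≤ VV q ((2 : ℝ) ^ j) m * ((2 : ℝ) ^ j) ^ (-g + ε)) →
    ∀ᶠ N : ℕ in atTop,
      ∃ (x y : Fin m → ℕ) (z : ℕ), (∀ i, 1 ≤ x i) ∧ (∀ i, 1 ≤ y i) ∧ 1 ≤ z ∧ fsP k g x + fsP k g y + fp k g z = N := by
  obtain ⟨δ, hδ, hδ1, H⟩ := repr_blockP k hk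
  refine ⟨δ, hδ, hδ1, fun q m g hq hq1 hg1 hg2 hMV => ?_⟩
  obtain ⟨j0, hj0⟩ := eventually_atTop.1 (H q m g hq hq1 hg1 hg2 hMV)
  have hk0 : (0 : ℝ) < k := by
    have : 0 < k := by omega
    exact_mod_cast this
  have h1 : Tendsto (fun N : ℕ => (N : ℝ) ^ (1 / (k : ℝ))) atTop atTop :=
    (tendsto_rpow_atTop (by positivity)).comp tendsto_natCast_atTop_atTop
  filter_upwards [h1.eventually_ge_atTop (16 * (2 : ℝ) ^ (j0 + 1))] with N hN
  set v : ℝ := (N : ℝ) ^ (1 / (k : ℝ)) with hv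
  have hvθ : v ^ k = N := by
    rw [← Real.rpow_natCast, hv, ← Real.rpow_mul (by positivity), one_div_mul_cancel hk0.ne', Real.rpow_one]
  have h2 : (1 : ℝ) ≤ v / 16 := by
    have : (1 : ℝ) ≤ (2 : ℝ) ^ (j0 + 1) := one_le_pow₀ (by norm_num)
    linarith
  obtain ⟨j, hj1, hj2⟩ := exists_nat_pow_near h2 (by norm_num : (1 : ℝ) < 2)
  have hj : j0 ≤ j := by
    by_contra hlt
    have h3 : (2 : ℝ) ^ (j + 1) ≤ (2 : ℝ) ^ (j0 + 1) := pow_le_pow_right₀ (by norm_num) (by omega)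
    linarith
  refine hj0 j hj N ?_ ?_
  · rw [← hvθ]
    exact pow_le_pow_left₀ (by positivity) (by linarith) k
  · rw [← hvθ]
    apply pow_le_pow_left₀ (by linarith)
    rw [pow_succ] at hj2
    linarith

end Pool.Agent.J4H7.WP
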