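import Pool.Agent.J4H7.WP.F
import Pool.Agent.J4H7.WL.G

set_option autoImplicit false

/-!
# Waring's problem for the sequences `n^k + ⌊n^g⌋`, part G (helper7)

The main theorem.
-/

namespace Pool.Agent.J4H7.WP

open Real Set Filter Topology MeasureTheory
open Pool.Agent.J4H7.WE

/-- joining the variables -/
lemma joinP {k : ℕ} {g : ℝ} {m s : ℕ} (hs : 2 * m + 1 ≤ s) (x y : Fin m → ℕ) (z : ℕ) (hx : ∀ i, 1 ≤ x i)
    (hy : ∀ i, 1 ≤ y i) (hz : 1 ≤ z) : ∃ w : Fin s → ℕ, (∀ i, 1 ≤ w i) ∧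
      ∑ i, fp k g (w i) = fsP k g x + fsP k g y + fp k g z + (s - (2 * m + 1)) * fp k g 1 := by
  classical
  have hcard : (Finset.univ : Finset (Option (Fin m × Bool))).card = 2 * m + 1 := by
    rw [Finset.card_univ, Fintype.card_option, Fintype.card_prod, Fintype.card_fin, Fintype.card_bool]
    ring
  obtain ⟨w, hw1, hw2⟩ := WL.pad (Finset.univ : Finset (Option (Fin m × Bool)))
    (fun o => match o with
      | none => z
      | some p => if p.2 then x p.1 else y p.1) (fun o _ => by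
    cases o with
    | none => exact hz
    | some p =>
      simp only
      split_ifs
      · exact hx _
      · exact hy _) (fp k g) (u := s) (by rw [hcard]; exact hs)
  refine ⟨w, hw1, ?_⟩
  rw [hw2, hcard, Fintype.sum_option, Fintype.sum_prod_type]
  simp only [Fintype.sum_bool, if_true, Bool.false_eq_true, if_false]
  rw [Finset.sum_add_distrib]
  unfold fsP
  ring

/-- **the main theorem** -/
theorem main (k : ℕ) (hk : 2 ≤ k) : ∃ δ : ℝ, 0 < δ ∧ ∀ᵐ g : ℝ, k - δ < g → g < k → ∀ s : ℕ, 4 * Real.log 2 * k + 3 ≤ s →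
    ∃ N₀ : ℕ, ∀ N : ℕ, N₀ ≤ N → ∃ x : Fin s → ℕ, (∀ i, 1 ≤ x i) ∧ ∑ i, ((x i) ^ k + ⌊(x i : ℝ) ^ g⌋₊) = N := by
  have hk' : (2 : ℝ) ≤ k := by exact_mod_cast hk
  set m : ℕ := ⌈2 * Real.log 2 * k⌉₊ with hm
  have hlog : 0 < Real.log 2 := Real.log_pos (by norm_num)
  have hm1 : 2 * Real.log 2 * k ≤ m := Nat.le_ceil _
  have hm2 : (m : ℝ) < 2 * Real.log 2 * k + 1 := Nat.ceil_lt_add_one (by positivity)
  have hk1 : (1 : ℝ) < k := by linarith
  obtain ⟨q, hq0, hq1, hA, hB, hC⟩ := exists_q hk1 (levels hk1 hm1)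
  have hq0' : (0 : ℝ) < q := by exact_mod_cast hq0
  have hq1' : (q : ℝ) < 1 := by exact_mod_cast hq1
  obtain ⟨δ0, hδ0, hδ01, HR⟩ := repr_allP k hk
  set δ : ℝ := min δ0 (((k : ℝ) - 1 - q ^ 2 * k) / 2) with hδ
  have hδ_pos : 0 < δ := lt_min hδ0 (by linarith)
  have hδ_le0 : δ ≤ δ0 := min_le_left _ _
  have hδ_le1 : δ ≤ ((k : ℝ) - 1 - q ^ 2 * k) / 2 := min_le_right _ _
  refine ⟨δ, hδ_pos, ?_⟩
  filter_upwards [ae_meanP k m hk hq0' hq1' hδ_pos (by linarith) (by linarith) hB.le hC.le] with g hmean hg1 hg2 s hs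
  have hs' : 2 * m + 1 ≤ s := by
    have : ((2 * m + 1 : ℕ) : ℝ) < s := by
      push_cast
      linarith
    have : 2 * m + 1 < s := by exact_mod_cast this
    omega
  obtain ⟨N1, hN1⟩ := eventually_atTop.1 (HR q m g hq0' hq1' (by linarith) hg2 (hmean hg1 hg2))
  refine ⟨N1 + (s - (2 * m + 1)) * fp k g 1, fun N hN => ?_⟩
  obtain ⟨x, y, z, hx, hy, hz, h3⟩ := hN1 (N - (s - (2 * m + 1)) * fp k g 1) (by omega)
  obtain ⟨w, hw, h4⟩ := joinP (k := k) (g := g) hs' x y z hx hy hz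
  refine ⟨w, hw, ?_⟩
  have h5 : ∑ i, fp k g (w i) = N := by
    rw [h4, h3]
    omega
  rw [← h5]
  exact Finset.sum_congr rfl fun i _ => (fp_eq k g (w i)).symm

end Pool.Agent.J4H7.WP
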